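import Pool.Agent.H902B.Cover

set_option autoImplicit false

/-!
Inequalities for large parameters.
-/

namespace Pool.Agent.H902B

open Filter Asymptotics

theorem ev_log : ∀ᶠ T : ℕ in atTop, Real.log ((T : ℝ) + 2) ≤ (T : ℝ) / 1000 := by
  have h1 := (Real.isLittleO_log_id_atTop).bound (by norm_num : (0 : ℝ) < 1 / 2000)
  have h2 : Tendsto (fun T : ℕ => (T : ℝ) + 2) atTop atTop :=
    tendsto_atTop_add_const_right _ _ tendsto_natCast_atTop_atTop
  filter_upwards [h2.eventually h1, eventually_ge_atTop 2] with T hT hT2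
  have h3 : (2 : ℝ) ≤ T := by exact_mod_cast hT2
  simp only [id_eq, Real.norm_eq_abs] at hT
  rw [abs_of_nonneg (by linarith : (0 : ℝ) ≤ (T : ℝ) + 2)] at hT
  have h4 := le_abs_self (Real.log ((T : ℝ) + 2))
  linarith

theorem ev_sqrt : ∀ᶠ T : ℕ in atTop, Real.sqrt T * Real.log T ≤ (T : ℝ) / 1000 := by
  have h1 := (isLittleO_log_rpow_atTop (by norm_num : (0 : ℝ) < 1 / 2)).bound
    (by norm_num : (0 : ℝ) < 1 / 1000)
  filter_upwards [tendsto_natCast_atTop_atTop.eventually h1, eventually_ge_atTop 2] with T hT hT2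
  have h3 : (2 : ℝ) ≤ T := by exact_mod_cast hT2
  rw [Real.norm_eq_abs, Real.norm_eq_abs, ← Real.sqrt_eq_rpow,
    abs_of_nonneg (Real.sqrt_nonneg _)] at hT
  have h4 := le_abs_self (Real.log (T : ℝ))
  have h5 : Real.log T ≤ 1 / 1000 * Real.sqrt T := h4.trans hT
  calc Real.sqrt T * Real.log T ≤ Real.sqrt T * (1 / 1000 * Real.sqrt T) :=
        mul_le_mul_of_nonneg_left h5 (Real.sqrt_nonneg _)
    _ = (Real.sqrt T * Real.sqrt T) / 1000 := by ring
    _ = (T : ℝ) / 1000 := by rw [Real.mul_self_sqrt (by linarith)]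

theorem log_LL (T : ℕ) (hT : 1 ≤ T) :
    Real.log (LL T : ℝ) ≤ Real.log 4 * T + 2 * Real.sqrt T * Real.log T := by
  have h1 := Chebyshev.psi_le (x := (T : ℝ)) (by exact_mod_cast hT)
  rw [Chebyshev.psi_eq_log_lcmUpto] at h1
  exact h1

/-- the properties of `T` used below -/
def Big (T : ℕ) : Prop :=
  10000 ≤ T ∧ Real.log ((T : ℝ) + 2) ≤ (T : ℝ) / 1000 ∧
    Real.sqrt T * Real.log T ≤ (T : ℝ) / 1000

theorem ev_big : ∃ T0 : ℕ, ∀ T, T0 ≤ T → Big T := by
  have h := ((eventually_ge_atTop 10000).and (ev_log.and ev_sqrt))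
  obtain ⟨T0, hT0⟩ := eventually_atTop.1 h
  exact ⟨T0, fun T hT => hT0 T hT⟩

theorem log2_lo : (0.6931 : ℝ) < Real.log 2 := by
  have := Real.log_two_gt_d9
  linarith

theorem log2_hi : Real.log 2 < (0.6932 : ℝ) := by
  have := Real.log_two_lt_d9
  linarith

theorem log4 : Real.log 4 = 2 * Real.log 2 := by
  rw [show (4 : ℝ) = 2 ^ 2 by norm_num, Real.log_pow]
  norm_num

theorem log8 : Real.log 8 = 3 * Real.log 2 := by
  rw [show (8 : ℝ) = 2 ^ 3 by norm_num, Real.log_pow]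
  norm_num

/-- first inequality: the exponents -/
theorem F1 (T : ℕ) (hT : Big T) (a P : ℝ) (ha : 1 ≤ a)
    (hla : Real.log a ≤ 9 * ((T : ℝ) + 1) / 200) (hP : 1 ≤ P) (hP2 : P ≤ 2 * 8 ^ T) :
    4 * (T : ℝ) * (P * (((T : ℝ) + 1) * (LL T : ℝ) * 16 ^ T * (1 + ((T : ℝ) + 1) * (a * P)))) ≤
      Real.exp (8.4 * T) := by
  obtain ⟨h1, h2, h3⟩ := hT
  have hT1 : (10000 : ℝ) ≤ T := by exact_mod_cast h1
  have hLL : (0 : ℝ) < LL T := by exact_mod_cast LL_pos T
  have hPP : P * P ≤ 4 * 64 ^ T := by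
    calc P * P ≤ (2 * 8 ^ T) * (2 * 8 ^ T) := mul_le_mul hP2 hP2 (by linarith) (by positivity)
      _ = 4 * (8 * 8) ^ T := by rw [mul_pow]; ring
      _ = 4 * 64 ^ T := by norm_num
  have h4 : 1 + ((T : ℝ) + 1) * (a * P) ≤ ((T : ℝ) + 2) * (a * P) := by
    have : 1 ≤ a * P := one_le_mul_of_one_le_of_one_le ha hP
    linarith
  have h5 : 4 * (T : ℝ) * (P * (((T : ℝ) + 1) * (LL T : ℝ) * 16 ^ T *
      (1 + ((T : ℝ) + 1) * (a * P)))) ≤
      16 * ((T : ℝ) + 2) ^ 3 * (LL T : ℝ) * a * 1024 ^ T := by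
    calc 4 * (T : ℝ) * (P * (((T : ℝ) + 1) * (LL T : ℝ) * 16 ^ T *
      (1 + ((T : ℝ) + 1) * (a * P))))
        ≤ 4 * ((T : ℝ) + 2) * (P * (((T : ℝ) + 2) * (LL T : ℝ) * 16 ^ T *
      (((T : ℝ) + 2) * (a * P)))) := by
          gcongr
          · linarith
          · linarith
      _ = 4 * ((T : ℝ) + 2) ^ 3 * (LL T : ℝ) * a * 16 ^ T * (P * P) := by ring
      _ ≤ 4 * ((T : ℝ) + 2) ^ 3 * (LL T : ℝ) * a * 16 ^ T * (4 * 64 ^ T) := by
          have : 0 ≤ a := by linarith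
          gcongr
      _ = 16 * ((T : ℝ) + 2) ^ 3 * (LL T : ℝ) * a * (16 * 64) ^ T := by
          rw [mul_pow]
          ring
      _ = 16 * ((T : ℝ) + 2) ^ 3 * (LL T : ℝ) * a * 1024 ^ T := by norm_num
  refine h5.trans ?_
  have ha0 : 0 < a := by linarith
  have hpos : 0 < 16 * ((T : ℝ) + 2) ^ 3 * (LL T : ℝ) * a * 1024 ^ T := by positivity
  rw [← Real.log_le_iff_le_exp hpos]
  have hT2 : (0 : ℝ) < (T : ℝ) + 2 := by linarith
  rw [Real.log_mul (by positivity) (by positivity), Real.log_mul (by positivity) (by positivity),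
    Real.log_mul (by positivity) (by positivity), Real.log_mul (by positivity) (by positivity),
    Real.log_pow, Real.log_pow]
  have h6 := log_LL T (by omega)
  have h7 : Real.log 16 = 4 * Real.log 2 := by
    rw [show (16 : ℝ) = 2 ^ 4 by norm_num, Real.log_pow]
    norm_num
  have h8 : Real.log 1024 = 10 * Real.log 2 := by
    rw [show (1024 : ℝ) = 2 ^ 10 by norm_num, Real.log_pow]
    norm_num
  rw [h7, h8]
  rw [log4] at h6
  have h9 := log2_hi
  have h10 : (T : ℝ) * Real.log 2 ≤ T * 0.6932 := by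
    apply mul_le_mul_of_nonneg_left h9.le
    linarith
  push_cast
  nlinarith

/-- size of the factors -/
theorem F2 (T : ℕ) (hT : Big T) (a P : ℝ) (ha : 1 ≤ a)
    (hla : Real.log a ≤ 9 * ((T : ℝ) + 1) / 200) (hP : 1 ≤ P) (hP2 : P ≤ 2 * 8 ^ T) :
    Real.log (1 + a * T * P) ≤ 3 * T := by
  obtain ⟨h1, h2, h3⟩ := hT
  have hT1 : (10000 : ℝ) ≤ T := by exact_mod_cast h1
  have ha0 : 0 < a := by linarith
  have hT2 : (0 : ℝ) < (T : ℝ) + 2 := by linarith
  have h4 : 1 + a * T * P ≤ ((T : ℝ) + 2) * a * (2 * 8 ^ T) := by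
    calc 1 + a * T * P ≤ a * P + a * T * P := by
          have : 1 ≤ a * P := one_le_mul_of_one_le_of_one_le ha hP
          linarith
      _ = ((T : ℝ) + 1) * a * P := by ring
      _ ≤ ((T : ℝ) + 2) * a * (2 * 8 ^ T) := by
          gcongr
          linarith
  have h5 : Real.log (1 + a * T * P) ≤ Real.log (((T : ℝ) + 2) * a * (2 * 8 ^ T)) :=
    Real.log_le_log (by positivity) h4
  refine h5.trans ?_
  rw [Real.log_mul (by positivity) (by positivity), Real.log_mul (by positivity) (by positivity),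
    Real.log_mul (by positivity) (by positivity), Real.log_pow, log8]
  have h9 := log2_hi
  nlinarith

/-- the gain -/
theorem F3 (T : ℕ) (hT : Big T) (A la ll : ℝ) (hA : A ≤ (9 * ((T : ℝ) + 1)) ^ 2 / 10000)
    (hla : la ≤ 9 * ((T : ℝ) + 1) / 200)
    (hll0 : 0 ≤ ll) (hll : ll ≤ 9.01 * T) :
    Real.log 2 + A + ((T : ℝ) + 1) * (Real.log 2 + la + Real.log T) + ll ^ 2 / 50 <
      (T : ℝ) * ((T : ℝ) - 1) * Real.log 8 := by
  obtain ⟨h1, h2, h3⟩ := hT
  have hT1 : (10000 : ℝ) ≤ T := by exact_mod_cast h1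
  have h4 : ll ^ 2 ≤ (9.01 * T) ^ 2 := pow_le_pow_left₀ hll0 hll 2
  have h5 : Real.log T ≤ (T : ℝ) / 1000 :=
    (Real.log_le_log (by linarith) (by linarith)).trans h2
  have h6 := log2_hi
  have h7 := log2_lo
  have h8 : ((T : ℝ) + 1) * (Real.log 2 + la + Real.log T) ≤
      ((T : ℝ) + 1) * (0.6932 + 9 * ((T : ℝ) + 1) / 200 + (T : ℝ) / 1000) := by
    apply mul_le_mul_of_nonneg_left _ (by linarith)
    linarith
  rw [log8]
  have h9 : (T : ℝ) * ((T : ℝ) - 1) * (3 * 0.6931) ≤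
      (T : ℝ) * ((T : ℝ) - 1) * (3 * Real.log 2) := by
    apply mul_le_mul_of_nonneg_left _ (by nlinarith)
    linarith
  nlinarith

end Pool.Agent.H902B
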