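import Pool.Agent.H902A.Ex

set_option autoImplicit false

/-!
Products of powers of `1 + u x` as truncated exponentials, with explicit error.
-/

namespace Pool.Agent.H902B

open Finset Pool.Agent.H902A

theorem exq {T : ℕ} (R : ℕ) (hR : 1 ≤ R) (u : Fin T → ℤ) (c : Fin T → ℕ) (x : ℤ) :
    x ^ R ∣ (R.factorial : ℤ) ^ (R + 1) * ∏ i, (1 + u i * x) ^ (c i) -
      ∑ j ∈ range R, ((R.factorial : ℤ) ^ (R - j) * ((R.factorial / j.factorial : ℕ) : ℤ)) *
        (∑ i, (c i : ℤ) * (l R (u i)).eval x) ^ j := by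
  obtain ⟨r, rfl⟩ : ∃ r', R = r' + 1 := ⟨R - 1, by omega⟩
  set R : ℕ := r + 1 with hR'
  set S' : Polynomial ℤ := ∑ i, Polynomial.C (c i : ℤ) * l R (u i) with hS'
  set s : PowerSeries ℚ := ∑ i, PowerSeries.C (c i : ℚ) * L (u i : ℚ) with hs
  have hsS : (PowerSeries.X : PowerSeries ℚ) ^ R ∣
      PowerSeries.C (R.factorial : ℚ) * s - phi S' := by
    have h2 : (PowerSeries.X : PowerSeries ℚ) ^ R ∣
        ∑ i, PowerSeries.C (c i : ℚ) *
          (phi (l R (u i)) - PowerSeries.C (R.factorial : ℚ) * L (u i : ℚ)) :=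
      Finset.dvd_sum fun i _ => (l_dvd R (u i)).mul_left _
    have h3 := (dvd_neg (α := PowerSeries ℚ)).2 h2
    convert h3 using 1
    rw [hs, hS', map_sum, Finset.mul_sum, ← Finset.sum_sub_distrib, ← Finset.sum_neg_distrib]
    refine Finset.sum_congr rfl fun i _ => ?_
    rw [map_mul phi, phi_C]
    push_cast
    ring
  set F : Polynomial ℤ := ∏ i, (1 + Polynomial.C (u i) * Polynomial.X) ^ (c i) with hF
  set GZ : Polynomial ℤ := ∑ j ∈ range R,
    Polynomial.C ((R.factorial : ℤ) ^ (R - j) * ((R.factorial / j.factorial : ℕ) : ℤ)) * S' ^ j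
    with hGZ
  have hphiF : phi F = Fs (fun i => (u i : ℚ)) c univ := by
    rw [hF, map_prod]
    unfold Fs
    refine Finset.prod_congr rfl fun i _ => ?_
    rw [map_pow, map_add, map_one, map_mul, phi_C, phi_X, W, Polynomial.coe_add,
      Polynomial.coe_one, Polynomial.coe_mul, Polynomial.coe_C, Polynomial.coe_X]
  have hphiG : (PowerSeries.X : PowerSeries ℚ) ^ R ∣
      PowerSeries.C ((R.factorial : ℚ) ^ (R + 1)) * G s R - phi GZ := by
    have h2 : (PowerSeries.X : PowerSeries ℚ) ^ R ∣ ∑ j ∈ range R,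
        PowerSeries.C ((R.factorial : ℚ) ^ (R - j) * ((R.factorial : ℚ) / j.factorial)) *
          ((PowerSeries.C (R.factorial : ℚ) * s) ^ j - (phi S') ^ j) :=
      Finset.dvd_sum fun j _ => (hsS.trans (sub_dvd_pow_sub_pow _ _ j)).mul_left _
    convert h2 using 1
    rw [hGZ, map_sum, G, Finset.mul_sum, ← Finset.sum_sub_distrib]
    refine Finset.sum_congr rfl fun j hj => ?_
    have hjR : j < R := Finset.mem_range.1 hj
    have hdvd : j.factorial ∣ R.factorial := Nat.factorial_dvd_factorial hjR.le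
    have hj0 : (j.factorial : ℚ) ≠ 0 := by exact_mod_cast Nat.factorial_ne_zero j
    have h7 : (((R.factorial / j.factorial : ℕ) : ℤ) : ℚ) = (R.factorial : ℚ) / j.factorial := by
      rw [Int.cast_natCast, Nat.cast_div hdvd hj0]
    rw [map_mul phi, phi_C, mul_sub, mul_pow]
    have h8 : (((R.factorial : ℤ) ^ (R - j) * ((R.factorial / j.factorial : ℕ) : ℤ) : ℤ) : ℚ) =
        (R.factorial : ℚ) ^ (R - j) * ((R.factorial : ℚ) / j.factorial) := by
      rw [Int.cast_mul, h7]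
      push_cast
      ring
    rw [h8]
    have h9 : (R.factorial : ℚ) ^ (R + 1) = (R.factorial : ℚ) ^ (R - j) * (R.factorial : ℚ) ^ j *
        (R.factorial : ℚ) := by
      rw [← pow_add, ← pow_succ]
      congr 1
      omega
    have h10 : (R.factorial : ℚ) ^ (R + 1) * (1 / (j.factorial : ℚ)) =
        (R.factorial : ℚ) ^ (R - j) * ((R.factorial : ℚ) / j.factorial) *
          (R.factorial : ℚ) ^ j := by
      rw [h9]
      ring
    have h11 := congrArg (PowerSeries.C (R := ℚ)) h10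
    rw [map_mul, map_mul (PowerSeries.C (R := ℚ)) (_ * _), map_pow (PowerSeries.C (R := ℚ)) _ j,
      map_pow (PowerSeries.C (R := ℚ)) _ (R + 1)] at h11
    rw [map_pow phi, map_pow (PowerSeries.C (R := ℚ)) _ (R + 1)]
    linear_combination s ^ j * h11
  have hdiv : (Polynomial.X : Polynomial ℤ) ^ R ∣
      Polynomial.C ((R.factorial : ℤ) ^ (R + 1)) * F - GZ := by
    apply dvd_of_phi
    rw [map_sub, map_mul, phi_C, hphiF]
    have h5 : (PowerSeries.X : PowerSeries ℚ) ^ R ∣ Fs (fun i => (u i : ℚ)) c univ - G s R := by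
      rw [PowerSeries.X_pow_dvd_iff]
      intro n hn
      exact key (fun i => (u i : ℚ)) c r n hn
    have h6 := dvd_add (h5.mul_left (PowerSeries.C ((R.factorial : ℚ) ^ (R + 1)))) hphiG
    rw [mul_sub, sub_add_sub_cancel] at h6
    have h10 : ((((R.factorial : ℤ) ^ (R + 1) : ℤ)) : ℚ) = (R.factorial : ℚ) ^ (R + 1) := by
      push_cast
      ring
    rw [h10]
    exact h6
  obtain ⟨q, hq⟩ := hdiv
  refine ⟨q.eval x, ?_⟩
  have h1 := congrArg (Polynomial.eval x) hq
  rw [Polynomial.eval_mul, Polynomial.eval_pow, Polynomial.eval_X] at h1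
  rw [← h1, Polynomial.eval_sub, Polynomial.eval_mul, Polynomial.eval_C, hF, hGZ,
    Polynomial.eval_prod, Polynomial.eval_finsetSum]
  congr 1
  · congr 1
    refine Finset.prod_congr rfl fun i _ => ?_
    simp
  · refine Finset.sum_congr rfl fun j _ => ?_
    rw [Polynomial.eval_mul, Polynomial.eval_C, Polynomial.eval_pow, hS',
      Polynomial.eval_finsetSum]
    congr 2
    refine Finset.sum_congr rfl fun i _ => ?_
    rw [Polynomial.eval_mul, Polynomial.eval_C]

/-- if the combination of truncated logarithms is divisible by `P ^ N`, it gives the product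
modulo `P ^ (N + 1)` -/
theorem exq2 {T : ℕ} (N : ℕ) (hN : 1 ≤ N) (u : Fin T → ℤ) (c : Fin T → ℕ) (P : ℕ)
    (hP : P.Prime) (hPN : N + 1 < P)
    (hdvd : (P : ℤ) ^ N ∣ ∑ i, (c i : ℤ) * (l (N + 1) (u i)).eval (P : ℤ)) :
    (P : ℤ) ^ (N + 1) ∣ ((N + 1).factorial : ℤ) * (∏ i, (1 + u i * (P : ℤ)) ^ (c i) - 1) -
      ∑ i, (c i : ℤ) * (l (N + 1) (u i)).eval (P : ℤ) := by
  have h := exq (N + 1) (by omega) u c (P : ℤ)
  set S : ℤ := ∑ i, (c i : ℤ) * (l (N + 1) (u i)).eval (P : ℤ) with hS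
  set F : ℤ := ∏ i, (1 + u i * (P : ℤ)) ^ (c i) with hF
  set M : ℤ := ((N + 1).factorial : ℤ) with hM
  have hcop : IsCoprime ((P : ℤ) ^ (N + 1)) (M ^ (N + 1)) := by
    apply IsCoprime.pow
    rw [hM]
    apply Nat.isCoprime_iff_coprime.2
    rw [Nat.Prime.coprime_iff_not_dvd hP, hP.dvd_factorial]
    omega
  apply hcop.dvd_of_dvd_mul_left
  have h2 : ∑ j ∈ range (N + 1), (M ^ (N + 1 - j) * (((N + 1).factorial / j.factorial : ℕ) : ℤ)) *
      S ^ j = M ^ (N + 2) + M ^ (N + 1) * S + ∑ j ∈ range (N - 1),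
        (M ^ (N + 1 - (j + 2)) * (((N + 1).factorial / (j + 2).factorial : ℕ) : ℤ)) *
      S ^ (j + 2) := by
    obtain ⟨n, rfl⟩ : ∃ n, N = n + 1 := ⟨N - 1, by omega⟩
    rw [Finset.sum_range_succ', Finset.sum_range_succ', Nat.add_sub_cancel]
    simp only [zero_add, Nat.factorial_zero, Nat.factorial_one, Nat.div_one, pow_zero, mul_one,
      pow_one, Nat.sub_zero]
    rw [← hM, Nat.add_sub_cancel]
    ring
  have h3 : (P : ℤ) ^ (N + 1) ∣ ∑ j ∈ range (N - 1),
        (M ^ (N + 1 - (j + 2)) * (((N + 1).factorial / (j + 2).factorial : ℕ) : ℤ)) *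
      S ^ (j + 2) := by
    refine Finset.dvd_sum fun j _ => Dvd.dvd.mul_left ?_ _
    have h4 : ((P : ℤ) ^ N) ^ (j + 2) ∣ S ^ (j + 2) := pow_dvd_pow_of_dvd hdvd _
    refine dvd_trans ?_ h4
    rw [← pow_mul]
    apply pow_dvd_pow
    nlinarith
  rw [h2] at h
  have h5 := dvd_add h h3
  convert h5 using 1
  ring

end Pool.Agent.H902B
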