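import Pool.Agent.H902B.Pade
import Pool.Agent.H902B.Exq

set_option autoImplicit false

/-!
Short products of the numbers `1 + a i P` which are `1 + s P ^ N` with `s` prime to `P`.
-/

namespace Pool.Agent.H902B

open Finset Pool.Agent.H902A

/-- coefficients of the truncated logarithm -/
def gg (R n : ℕ) : ℤ := if n = 0 then 0 else ((R.factorial / n : ℕ) : ℤ) * (-1) ^ (n + 1)

theorem gg_mul (R n : ℕ) (hn : 1 ≤ n) (hnR : n ≤ R) :
    (n : ℤ) * gg R n = (R.factorial : ℤ) * (-1) ^ (n + 1) := by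
  unfold gg
  rw [if_neg (by omega)]
  have h : (n : ℤ) * ((R.factorial / n : ℕ) : ℤ) = (R.factorial : ℤ) := by
    exact_mod_cast Nat.mul_div_cancel' (Nat.dvd_factorial hn hnR)
  linear_combination (-1) ^ (n + 1) * h

theorem eval_l (R : ℕ) (a i P : ℤ) :
    (l R (a * i)).eval P = ∑ n ∈ range R, gg R n * i ^ n * (a * P) ^ n := by
  unfold l
  rw [Polynomial.eval_finsetSum]
  refine Finset.sum_congr rfl fun n _ => ?_
  rw [Polynomial.eval_mul, Polynomial.eval_C, Polynomial.eval_pow, Polynomial.eval_X]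
  unfold gg
  split_ifs
  · simp
  · rw [mul_pow, mul_pow]
    ring

theorem Sval (A B : ℕ → ℤ) (M N : ℕ) (hN : 2 ≤ N) (y : ℤ)
    (hB0 : ∑ i ∈ range M, B i = 0)
    (hlam : ∀ ν, ν + 1 < N → ∑ i ∈ range M, A i * (i : ℤ) ^ (ν + 1) +
      ((ν : ℤ) + 1) * ∑ i ∈ range M, B i * (i : ℤ) ^ ν = 0) :
    ∃ κ q : ℤ, (N : ℤ) * ((N - 1 : ℕ) : ℤ) * κ = (-1) ^ N * ((N + 1).factorial : ℤ) *
      (∑ i ∈ range M, A i * (i : ℤ) ^ N + (((N - 1 : ℕ) : ℤ) + 1) *
        ∑ i ∈ range M, B i * (i : ℤ) ^ (N - 1)) ∧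
      ∑ i ∈ range M, (A i * (1 + (i : ℤ) * y) + B i * y) *
        ∑ n ∈ range (N + 1), gg (N + 1) n * (i : ℤ) ^ n * y ^ n = κ * y ^ N + y ^ (N + 1) * q := by
  set α : ℕ → ℤ := fun n => ∑ i ∈ range M, A i * (i : ℤ) ^ n with hα
  set β : ℕ → ℤ := fun n => ∑ i ∈ range M, B i * (i : ℤ) ^ n with hβ
  set g : ℕ → ℤ := gg (N + 1) with hg
  have hβ0 : β 0 = 0 := by simpa [hβ] using hB0
  have hlam' : ∀ ν, ν + 1 < N → α (ν + 1) + ((ν : ℤ) + 1) * β ν = 0 := hlam
  have hg0 : g 0 = 0 := by simp [hg, gg]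
  have hsum : ∑ i ∈ range M, (A i * (1 + (i : ℤ) * y) + B i * y) *
        ∑ n ∈ range (N + 1), g n * (i : ℤ) ^ n * y ^ n =
      ∑ n ∈ range (N + 1), g n * y ^ n * (α n + y * α (n + 1) + y * β n) := by
    rw [Finset.sum_congr rfl fun i _ => Finset.mul_sum _ _ _, Finset.sum_comm]
    refine Finset.sum_congr rfl fun n _ => ?_
    rw [hα, hβ]
    simp only
    rw [Finset.mul_sum, Finset.mul_sum, ← Finset.sum_add_distrib, ← Finset.sum_add_distrib,
      Finset.mul_sum]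
    refine Finset.sum_congr rfl fun i _ => ?_
    ring
  have hsum2 : ∑ n ∈ range (N + 1), g n * y ^ n * (α n + y * α (n + 1) + y * β n) =
      ∑ n ∈ range N, y ^ (n + 1) * (g (n + 1) * α (n + 1) + g n * (α (n + 1) + β n)) +
        y ^ (N + 1) * (g N * (α (N + 1) + β N)) := by
    have h1 : ∀ n, g n * y ^ n * (α n + y * α (n + 1) + y * β n) =
        g n * y ^ n * α n + y ^ (n + 1) * (g n * (α (n + 1) + β n)) := fun n => by ring
    rw [Finset.sum_congr rfl fun n _ => h1 n, Finset.sum_add_distrib, Finset.sum_range_succ',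
      Finset.sum_range_succ (fun n => y ^ (n + 1) * (g n * (α (n + 1) + β n))), hg0]
    have h2 : ∀ n, y ^ (n + 1) * (g (n + 1) * α (n + 1) + g n * (α (n + 1) + β n)) =
        g (n + 1) * y ^ (n + 1) * α (n + 1) + y ^ (n + 1) * (g n * (α (n + 1) + β n)) :=
      fun n => by ring
    rw [Finset.sum_congr rfl fun n _ => h2 n, Finset.sum_add_distrib]
    ring
  have hbr : ∀ n, 1 ≤ n → n < N → ((n : ℤ) + 1) * (n : ℤ) *
      (g (n + 1) * α (n + 1) + g n * (α (n + 1) + β n)) =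
      (-1) ^ (n + 1) * ((N + 1).factorial : ℤ) * (α (n + 1) + ((n : ℤ) + 1) * β n) := by
    intro n h1 h2
    have h3 := gg_mul (N + 1) n h1 (by omega)
    have h4 := gg_mul (N + 1) (n + 1) (by omega) (by omega)
    push_cast at h4
    rw [← hg] at h3 h4
    have h5 : (-1 : ℤ) ^ (n + 1 + 1) = - (-1) ^ (n + 1) := by
      rw [pow_succ (-1 : ℤ) (n + 1)]
      ring
    rw [h5] at h4
    linear_combination ((n : ℤ) * α (n + 1)) * h4 + (((n : ℤ) + 1) * (α (n + 1) + β n)) * h3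
  have hzero : ∀ n ∈ range (N - 1), y ^ (n + 1) *
      (g (n + 1) * α (n + 1) + g n * (α (n + 1) + β n)) = 0 := by
    intro n hn
    have hn' := Finset.mem_range.1 hn
    have h6 : g (n + 1) * α (n + 1) + g n * (α (n + 1) + β n) = 0 := by
      rcases Nat.eq_zero_or_pos n with h0 | h0
      · subst h0
        have h7 := hlam' 0 (by omega)
        rw [hβ0, mul_zero, add_zero] at h7
        rw [h7, hg0]
        ring
      · have h7 := hbr n h0 (by omega)
        rw [hlam' n (by omega), mul_zero] at h7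
        rcases mul_eq_zero.1 h7 with h8 | h8
        · have h9 : (0 : ℤ) < ((n : ℤ) + 1) * (n : ℤ) := by positivity
          exact absurd h8 h9.ne'
        · exact h8
    rw [h6, mul_zero]
  refine ⟨g N * α N + g (N - 1) * (α N + β (N - 1)), g N * (α (N + 1) + β N), ?_, ?_⟩
  · have h7 := hbr (N - 1) (by omega) (by omega)
    rw [show N - 1 + 1 = N by omega] at h7
    have h8 : ((N - 1 : ℕ) : ℤ) + 1 = N := by
      rw [Nat.cast_sub (by omega)]
      push_cast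
      ring
    rw [h8] at h7 ⊢
    exact h7
  · rw [hsum, hsum2]
    congr 1
    obtain ⟨n, rfl⟩ : ∃ n, N = n + 1 := ⟨N - 1, by omega⟩
    rw [Finset.sum_range_succ]
    rw [Nat.add_sub_cancel] at hzero ⊢
    rw [Finset.sum_eq_zero hzero]
    ring

/-- the elements of the filtration: for `N = 2 m + k + 1` -/
theorem elem (a P T m k : ℕ) (hP : P.Prime) (hPT : 2 * T + 1 < P) (hPa : ¬ P ∣ a) (hk : 1 ≤ k)
    (hmk : m + k ≤ T) :
    ∃ (c : Fin (T + 1) → ℕ) (e : Fin (T + 1) → ℤ),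
      (∀ i, |e i| ≤ ((m : ℤ) + 1) * (LL m : ℤ) * 8 ^ m * 2 ^ (m + k) *
        (1 + ((T : ℤ) + 1) * (a * P))) ∧
      (∀ i, (P : ℤ) ^ (2 * T + 1) ∣ (c i : ℤ) - e i) ∧
      ∃ s : ℤ, ¬ (P : ℤ) ∣ s ∧ ∏ i : Fin (T + 1), (1 + ((a : ℤ) * (i.1 : ℤ)) * (P : ℤ)) ^ (c i) =
        1 + s * (P : ℤ) ^ (2 * m + k + 1) := by
  set N : ℕ := 2 * m + k + 1 with hN
  set y : ℤ := (a : ℤ) * (P : ℤ) with hy
  have hy0 : 0 ≤ y := by positivity
  set e : Fin (T + 1) → ℤ := fun i => A m k i.1 * (1 + (i.1 : ℤ) * y) + B m k i.1 * y with he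
  have hP0 : (0 : ℤ) < (P : ℤ) ^ (2 * T + 1) := by
    have := hP.pos
    positivity
  set c : Fin (T + 1) → ℕ := fun i => (e i % (P : ℤ) ^ (2 * T + 1)).toNat with hc
  have hcc : ∀ i, (c i : ℤ) = e i % (P : ℤ) ^ (2 * T + 1) := fun i =>
    Int.toNat_of_nonneg (Int.emod_nonneg _ hP0.ne')
  have hce : ∀ i, (P : ℤ) ^ (2 * T + 1) ∣ (c i : ℤ) - e i := by
    intro i
    rw [hcc i]
    refine ⟨- (e i / (P : ℤ) ^ (2 * T + 1)), ?_⟩
    have := Int.emod_add_mul_ediv (e i) ((P : ℤ) ^ (2 * T + 1))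
    linear_combination this
  obtain ⟨κ, q, hκ, hS⟩ := Sval (A m k) (B m k) (T + 1) N (by omega) y
    (B_zero m k (T + 1) hk (by omega))
    (fun ν hν => lam_zero m k ν (T + 1) (by omega) (by omega))
  have htop := lam_top m k (T + 1) (by omega)
  rw [show N - 1 = 2 * m + k by omega] at hκ
  rw [← hN] at htop
  have hPprime : Prime (P : ℤ) := Nat.prime_iff_prime_int.1 hP
  have hfac : ∀ n, n < P → ¬ (P : ℤ) ∣ (n.factorial : ℤ) := by
    intro n hn h
    have h1 : P ∣ n.factorial := by exact_mod_cast h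
    rw [hP.dvd_factorial] at h1
    omega
  have hσ : ¬ (P : ℤ) ∣ ((∑ i ∈ range (T + 1), A m k i * (i : ℤ) ^ N +
      (((2 * m + k : ℕ) : ℤ) + 1) * ∑ i ∈ range (T + 1), B m k i * (i : ℤ) ^ (2 * m + k))) := by
    intro h
    have h1 : (P : ℤ) ∣ (N.factorial : ℤ) * (LL m : ℤ) * (m.factorial : ℤ) ^ 2 := by
      rw [← htop]
      exact h.mul_left _
    rcases hPprime.dvd_or_dvd h1 with h2 | h2
    · rcases hPprime.dvd_or_dvd h2 with h3 | h3
      · exact hfac N (by omega) h3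
      · have h4 : (P : ℤ) ∣ (m.factorial : ℤ) :=
          h3.trans (by exact_mod_cast Nat.lcmUpto_dvd_factorial m)
        exact hfac m (by omega) h4
    · exact hfac m (by omega) (hPprime.dvd_of_dvd_pow h2)
  have hκ' : ¬ (P : ℤ) ∣ κ := by
    intro h
    have h1 : (P : ℤ) ∣ (-1) ^ N * ((N + 1).factorial : ℤ) * (∑ i ∈ range (T + 1),
        A m k i * (i : ℤ) ^ N + (((2 * m + k : ℕ) : ℤ) + 1) *
          ∑ i ∈ range (T + 1), B m k i * (i : ℤ) ^ (2 * m + k)) := by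
      rw [← hκ]
      exact h.mul_left _
    rcases hPprime.dvd_or_dvd h1 with h2 | h2
    · rcases hPprime.dvd_or_dvd h2 with h3 | h3
      · exact hPprime.not_isUnit (isUnit_of_dvd_unit (hPprime.dvd_of_dvd_pow h3)
          (by simp))
      · exact hfac (N + 1) (by omega) h3
    · exact hσ h2
  -- the sum of the logarithms
  have hl : ∀ i : Fin (T + 1), (l (N + 1) ((a : ℤ) * (i.1 : ℤ))).eval (P : ℤ) =
      ∑ n ∈ range (N + 1), gg (N + 1) n * (i.1 : ℤ) ^ n * y ^ n := fun i => eval_l _ _ _ _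
  have hSe : ∑ i : Fin (T + 1), e i * (l (N + 1) ((a : ℤ) * (i.1 : ℤ))).eval (P : ℤ) =
      κ * y ^ N + y ^ (N + 1) * q := by
    rw [← hS, Finset.sum_range]
    refine Finset.sum_congr rfl fun i _ => ?_
    rw [hl i]
  have hSc : (P : ℤ) ^ (N + 1) ∣ ∑ i : Fin (T + 1), (c i : ℤ) *
      (l (N + 1) ((a : ℤ) * (i.1 : ℤ))).eval (P : ℤ) - κ * (a : ℤ) ^ N * (P : ℤ) ^ N := by
    have h1 : (P : ℤ) ^ (N + 1) ∣ ∑ i : Fin (T + 1), ((c i : ℤ) - e i) *
      (l (N + 1) ((a : ℤ) * (i.1 : ℤ))).eval (P : ℤ) := by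
      refine Finset.dvd_sum fun i _ => Dvd.dvd.mul_right ?_ _
      exact (pow_dvd_pow (P : ℤ) (by omega)).trans (hce i)
    have h2 : (P : ℤ) ^ (N + 1) ∣ y ^ (N + 1) * q := by
      rw [hy, mul_pow]
      exact ((dvd_refl _).mul_left _).mul_right _
    have h3 := dvd_add h1 h2
    have h4 : ∑ i : Fin (T + 1), ((c i : ℤ) - e i) *
        (l (N + 1) ((a : ℤ) * (i.1 : ℤ))).eval (P : ℤ) =
        ∑ i : Fin (T + 1), (c i : ℤ) * (l (N + 1) ((a : ℤ) * (i.1 : ℤ))).eval (P : ℤ) -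
        ∑ i : Fin (T + 1), e i * (l (N + 1) ((a : ℤ) * (i.1 : ℤ))).eval (P : ℤ) := by
      rw [← Finset.sum_sub_distrib]
      refine Finset.sum_congr rfl fun i _ => ?_
      ring
    have h5 : ∑ i : Fin (T + 1), (c i : ℤ) *
      (l (N + 1) ((a : ℤ) * (i.1 : ℤ))).eval (P : ℤ) - κ * (a : ℤ) ^ N * (P : ℤ) ^ N =
        ∑ i : Fin (T + 1), ((c i : ℤ) - e i) *
        (l (N + 1) ((a : ℤ) * (i.1 : ℤ))).eval (P : ℤ) + y ^ (N + 1) * q := by
      rw [h4, hSe, hy]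
      ring
    rw [h5]
    exact h3
  have hSc' : (P : ℤ) ^ N ∣ ∑ i : Fin (T + 1), (c i : ℤ) *
      (l (N + 1) ((a : ℤ) * (i.1 : ℤ))).eval (P : ℤ) := by
    have h1 := (pow_dvd_pow (P : ℤ) (by omega : N ≤ N + 1)).trans hSc
    have h2 : (P : ℤ) ^ N ∣ κ * (a : ℤ) ^ N * (P : ℤ) ^ N := (dvd_refl _).mul_left _
    have h3 := dvd_add h1 h2
    rwa [sub_add_cancel] at h3
  have hF := exq2 N (by omega) (fun i : Fin (T + 1) => (a : ℤ) * (i.1 : ℤ)) c P hP (by omega) hSc'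
  have hF2 := dvd_add hF hSc
  rw [sub_add_sub_cancel] at hF2
  set F : ℤ := ∏ i : Fin (T + 1), (1 + ((a : ℤ) * (i.1 : ℤ)) * (P : ℤ)) ^ (c i) with hFdef
  -- `P ^ N` divides `F - 1`
  have hcop : IsCoprime ((P : ℤ) ^ N) ((N + 1).factorial : ℤ) := by
    apply IsCoprime.pow_left
    apply Nat.isCoprime_iff_coprime.2
    rw [Nat.Prime.coprime_iff_not_dvd hP, hP.dvd_factorial]
    omega
  have hF3 : (P : ℤ) ^ N ∣ F - 1 := by
    apply hcop.dvd_of_dvd_mul_left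
    have h1 := (pow_dvd_pow (P : ℤ) (by omega : N ≤ N + 1)).trans hF2
    have h2 : (P : ℤ) ^ N ∣ κ * (a : ℤ) ^ N * (P : ℤ) ^ N := (dvd_refl _).mul_left _
    have h3 := dvd_add h1 h2
    rwa [sub_add_cancel] at h3
  obtain ⟨s, hs⟩ := hF3
  refine ⟨c, e, ?_, hce, s, ?_, ?_⟩
  · intro i
    have hi : (i.1 : ℤ) ≤ T := by
      have := i.2
      exact_mod_cast (by omega : i.1 ≤ T)
    have hi0 : (0 : ℤ) ≤ i.1 := by positivity
    set Z : ℤ := ((m : ℤ) + 1) * (LL m : ℤ) * 8 ^ m * 2 ^ (m + k) with hZ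
    have hZ0 : 0 ≤ Z := by positivity
    have h1 := abs_A m k i.1
    have h2 := abs_B m k i.1
    calc |e i| ≤ |A m k i.1 * (1 + (i.1 : ℤ) * y)| + |B m k i.1 * y| := abs_add_le _ _
      _ = |A m k i.1| * (1 + (i.1 : ℤ) * y) + |B m k i.1| * y := by
          rw [abs_mul, abs_mul, abs_of_nonneg hy0,
            abs_of_nonneg (by positivity : (0 : ℤ) ≤ 1 + (i.1 : ℤ) * y)]
      _ ≤ Z * (1 + (i.1 : ℤ) * y) + Z * y := by
          refine add_le_add (mul_le_mul_of_nonneg_right h1 (by positivity))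
            (mul_le_mul_of_nonneg_right h2 hy0)
      _ ≤ Z * (1 + (T : ℤ) * y) + Z * y := by
          have : (i.1 : ℤ) * y ≤ (T : ℤ) * y := mul_le_mul_of_nonneg_right hi hy0
          have := mul_le_mul_of_nonneg_left (add_le_add_right this 1) hZ0
          linarith
      _ = Z * (1 + ((T : ℤ) + 1) * ((a : ℤ) * P)) := by
          rw [hy]
          ring
  · intro hsd
    rw [hs, pow_succ] at hF2
    obtain ⟨w, hw⟩ := hF2
    have hPN0 : (P : ℤ) ^ N ≠ 0 := pow_ne_zero _ hPprime.ne_zero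
    have h1 : ((N + 1).factorial : ℤ) * s - κ * (a : ℤ) ^ N = P * w := by
      apply mul_left_cancel₀ hPN0
      linear_combination hw
    have h2 : (P : ℤ) ∣ κ * (a : ℤ) ^ N := by
      have h3 : κ * (a : ℤ) ^ N = ((N + 1).factorial : ℤ) * s - P * w := by linarith
      rw [h3]
      exact dvd_sub (hsd.mul_left _) (dvd_mul_right _ _)
    rcases hPprime.dvd_or_dvd h2 with h3 | h3
    · exact hκ' h3
    · have h4 := hPprime.dvd_of_dvd_pow h3
      exact hPa (by exact_mod_cast h4)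
  · linear_combination hs

end Pool.Agent.H902B
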