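import Pool.Agent.H902B.Fin

set_option autoImplicit false

/-!
Assembly.
-/

namespace Pool.Agent.H902B

open Finset Pool.Agent.H902A

theorem ZZ_cast (q P T : ℕ) : ((ZZ q P T : ℤ) : ℝ) =
    ((T : ℝ) + 1) * (LL T : ℝ) * 16 ^ T * (1 + ((T : ℝ) + 1) * ((q : ℝ) * P)) := by
  unfold ZZ
  push_cast
  ring

theorem cc_lt (a q P T : ℕ) (hT : 1 ≤ T) (hq : 1 ≤ q) (hP : 1 ≤ P) (f g : Fin (T + 1) → ℕ)
    (h : ∀ i, f i < g i) : cc a q P T f < cc a q P T g := by
  unfold cc
  apply Nat.mul_lt_mul_of_pos_left _ (by omega)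
  apply Finset.prod_lt_prod
  · intro i _
    positivity
  · intro i _
    exact Nat.pow_le_pow_right (by omega) (h i).le
  · refine ⟨⟨1, by omega⟩, Finset.mem_univ _, ?_⟩
    apply Nat.pow_lt_pow_right _ (h _)
    have : 0 < q * 1 * P := by positivity
    simp only
    omega

theorem core2 : ∃ L0 : ℝ, ∀ L : ℝ, L0 ≤ L → ∀ a : ℕ, 1 ≤ a →
    (rad a : ℝ) ≤ L ^ (1 / 200 : ℝ) → Real.log a ≤ Real.log L ^ 2 / 10000 →
    ∃ S : Finset ℕ, L ^ (1 / 20 : ℝ) ≤ S.card ∧ ∀ c ∈ S, a < c ∧ Nat.Coprime a c ∧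
      L ≤ Real.log c ∧ Real.log c ≤ L * Real.log L ^ 2 ∧
      (rad (a * (c - a) * c) : ℝ) * Real.exp (Real.log (Real.log c) ^ 2 / 50) < c := by
  obtain ⟨T0, hT0⟩ := ev_big
  refine ⟨Real.exp (9 * ((T0 : ℝ) + 1)), ?_⟩
  intro L hL a ha hra hla
  have hL0 : 0 < L := lt_of_lt_of_le (Real.exp_pos _) hL
  have hlogL : 9 * ((T0 : ℝ) + 1) ≤ Real.log L := by
    rw [← Real.log_exp (9 * ((T0 : ℝ) + 1))]
    exact Real.log_le_log (Real.exp_pos _) hL
  have hT00 : (0 : ℝ) ≤ T0 := by positivity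
  set T : ℕ := ⌊Real.log L / 9⌋₊ with hTdef
  have hTge : T0 ≤ T := by
    apply Nat.le_floor
    linarith
  have hbig := hT0 T hTge
  have hL1 : 9 * (T : ℝ) ≤ Real.log L := by
    have := Nat.floor_le (a := Real.log L / 9) (by linarith)
    rw [← hTdef] at this
    linarith
  have hL2 : Real.log L < 9 * ((T : ℝ) + 1) := by
    have := Nat.lt_floor_add_one (Real.log L / 9)
    rw [← hTdef] at this
    linarith
  have hbig' := hbig
  obtain ⟨hT1, -, -⟩ := hbig'
  have hT1' : (10000 : ℝ) ≤ T := by exact_mod_cast hT1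
  set q : ℕ := rad a with hq
  have hq1 : 1 ≤ q := rad_pos a
  have hqR : (1 : ℝ) ≤ q := by exact_mod_cast hq1
  have hlq : Real.log q ≤ 9 * ((T : ℝ) + 1) / 200 := by
    have h1 : Real.log q ≤ Real.log (L ^ (1 / 200 : ℝ)) := Real.log_le_log (by linarith) hra
    rw [Real.log_rpow hL0] at h1
    linarith
  obtain ⟨P, hP, hP1, hP2⟩ := Nat.exists_prime_lt_and_le_two_mul (8 ^ T) (by positivity)
  have hP1' : 1 ≤ P := hP.one_le
  have hPR : (1 : ℝ) ≤ P := by exact_mod_cast hP1'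
  have hPR2 : (P : ℝ) ≤ 2 * 8 ^ T := by exact_mod_cast hP2
  have hPR1 : (8 : ℝ) ^ T ≤ P := by exact_mod_cast hP1.le
  have hlogP1 : (T : ℝ) * Real.log 8 ≤ Real.log P := by
    rw [← Real.log_pow]
    exact Real.log_le_log (by positivity) hPR1
  have hqP : q < P := by
    by_contra h
    push Not at h
    have h1 : Real.log P ≤ Real.log q := Real.log_le_log (by linarith) (by exact_mod_cast h)
    have h2 := log2_lo
    rw [log8] at hlogP1
    nlinarith
  have hPq : ¬ P ∣ q := Nat.not_dvd_of_pos_of_lt hq1 hqP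
  have hPa : ¬ P ∣ a := by
    intro h
    apply hPq
    exact Finset.dvd_prod_of_mem (fun p => p) (Nat.mem_primeFactors.2 ⟨hP, h, by omega⟩)
  have hPT : 2 * T + 1 < P := by
    have h1 : T < 2 ^ T := Nat.lt_two_pow_self
    have h2 : 2 * 2 ^ T ≤ 8 ^ T := by
      calc 2 * 2 ^ T ≤ 4 ^ T * 2 ^ T := by
            apply Nat.mul_le_mul_right
            calc 2 ≤ 4 ^ 1 := by norm_num
              _ ≤ 4 ^ T := Nat.pow_le_pow_right (by norm_num) (by omega)
        _ = 8 ^ T := by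
            rw [← mul_pow]
            norm_num
    omega
  -- the bound for the exponents
  have hZ := one_le_ZZ q P T
  have hE0 : (0 : ℤ) ≤ 2 * (T : ℤ) * (P * ZZ q P T) := by positivity
  obtain ⟨E, hE⟩ : ∃ E : ℕ, (E : ℤ) = 2 * (T : ℤ) * (P * ZZ q P T) :=
    ⟨(2 * (T : ℤ) * (P * ZZ q P T)).toNat, Int.toNat_of_nonneg hE0⟩
  have hER : 2 * (E : ℝ) ≤ Real.exp (8.4 * T) := by
    have h1 : (E : ℝ) = 2 * (T : ℝ) * (P * ((ZZ q P T : ℤ) : ℝ)) := by exact_mod_cast hE
    rw [h1, ZZ_cast]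
    have h2 := F1 T hbig (q : ℝ) (P : ℝ) hqR hlq hPR hPR2
    linarith
  have hexpL : Real.exp (9 * T) ≤ L := by
    rw [← Real.le_log_iff_exp_le hL0]
    exact hL1
  have hEL : (E : ℝ) ≤ L / 2 := by
    have h1 : Real.exp (8.4 * T) ≤ Real.exp (9 * T) := Real.exp_le_exp.2 (by linarith)
    linarith
  have hL1' : 1 ≤ L := le_trans (Real.one_le_exp (by linarith)) hexpL
  set J : ℕ := ⌈L ^ (1 / 20 : ℝ)⌉₊ with hJ
  set W : ℕ := 2 * E + 1 with hW
  have hLp : 1 ≤ L ^ (1 / 20 : ℝ) := Real.one_le_rpow hL1' (by norm_num)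
  have hJR : (J : ℝ) ≤ 2 * L ^ (1 / 20 : ℝ) := by
    have := Nat.ceil_lt_add_one (a := L ^ (1 / 20 : ℝ)) (by linarith)
    rw [← hJ] at this
    linarith
  have hWR : (W : ℝ) ≤ 2 * Real.exp (8.4 * T) := by
    have h1 : (1 : ℝ) ≤ Real.exp (8.4 * T) := Real.one_le_exp (by linarith)
    rw [hW]
    push_cast
    linarith
  have hJW : (J : ℝ) * W ≤ L := by
    have h1 : (4 : ℝ) ≤ Real.exp (0.15 * T) := by
      have := Real.add_one_le_exp (0.15 * (T : ℝ))
      linarith
    have h2 : Real.exp (8.55 * T) ≤ L ^ (19 / 20 : ℝ) := by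
      have h3 : Real.exp (8.55 * T) = (Real.exp (9 * T)) ^ (19 / 20 : ℝ) := by
        rw [← Real.exp_mul]
        congr 1
        ring
      rw [h3]
      exact Real.rpow_le_rpow (Real.exp_pos _).le hexpL (by norm_num)
    calc (J : ℝ) * W ≤ (2 * L ^ (1 / 20 : ℝ)) * (2 * Real.exp (8.4 * T)) :=
          mul_le_mul hJR hWR (by positivity) (by linarith)
      _ = L ^ (1 / 20 : ℝ) * (4 * Real.exp (8.4 * T)) := by ring
      _ ≤ L ^ (1 / 20 : ℝ) * (Real.exp (0.15 * T) * Real.exp (8.4 * T)) := by gcongr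
      _ = L ^ (1 / 20 : ℝ) * Real.exp (8.55 * T) := by
          rw [← Real.exp_add]
          congr 2
          ring
      _ ≤ L ^ (1 / 20 : ℝ) * L ^ (19 / 20 : ℝ) := by gcongr
      _ = L := by
          rw [← Real.rpow_add hL0]
          norm_num
  set D : ℕ → ℕ := fun j => ⌈L⌉₊ + j * W with hD
  have hLD : ∀ j, L ≤ D j := by
    intro j
    have h1 := Nat.le_ceil L
    have h2 : (D j : ℝ) = ⌈L⌉₊ + j * W := by
      rw [hD]
      push_cast
      ring
    have h3 : (0 : ℝ) ≤ (j : ℝ) * W := by positivity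
    linarith
  have hDE : ∀ j, 2 * (T : ℤ) * (P * ZZ q P T) ≤ D j := by
    intro j
    rw [← hE]
    have h1 : (E : ℝ) ≤ D j := by linarith [hLD j]
    exact_mod_cast h1
  choose f hf1 hf2 hf3 using fun j => exponents a q P T (by omega) hP hPT hPa hPq (D j) (hDE j)
  set c : ℕ → ℕ := fun j => cc a q P T (f j) with hc
  have hmono : StrictMono c := by
    apply strictMono_nat_of_lt_succ
    intro j
    apply cc_lt a q P T (by omega) hq1 hP1'
    intro i
    have h1 := hf2 j i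
    have h2 := hf1 (j + 1) i
    rw [← hE] at h1 h2
    have h3 : (D (j + 1) : ℤ) = D j + (2 * E + 1) := by
      rw [hD, hW]
      push_cast
      ring
    have h4 : (f j i : ℤ) < f (j + 1) i := by
      rw [h3] at h2
      linarith
    exact_mod_cast h4
  refine ⟨(range J).image c, ?_, ?_⟩
  · rw [Finset.card_image_of_injective _ hmono.injective, Finset.card_range]
    exact Nat.le_ceil _
  · intro x hx
    obtain ⟨j, hj, rfl⟩ := Finset.mem_image.1 hx
    have hj' := Finset.mem_range.1 hj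
    have hDj : (D j : ℝ) ≤ 3 * L := by
      have h1 := Nat.ceil_lt_add_one hL0.le
      have h2 : (j : ℝ) * W ≤ J * W :=
        mul_le_mul_of_nonneg_right (by exact_mod_cast hj'.le) (by positivity)
      have h3 : (D j : ℝ) = ⌈L⌉₊ + j * W := by
        rw [hD]
        push_cast
        ring
      rw [h3]
      linarith
    refine props T hbig L hL1 hL2 hL0 a P ha hlq hla hP hPa hP1 hP2 (f j) ?_ ?_ (hf3 j) _ rfl
    · intro i
      have h1 := hf1 j i
      rw [← hE] at h1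
      have h2 : (D j : ℝ) - E ≤ f j i := by exact_mod_cast h1
      linarith [hLD j]
    · intro i
      have h1 := hf2 j i
      rw [← hE] at h1
      have h2 : (f j i : ℝ) ≤ D j + E := by exact_mod_cast h1
      linarith

end Pool.Agent.H902B
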