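import Pool.Agent.H902B.Chain
import Pool.Agent.H902A.Gen

set_option autoImplicit false

/-!
Every residue `≡ 1 (mod P)` modulo `P ^ (2 T + 1)` is a short product of the numbers `1 + a i P`.
-/

namespace Pool.Agent.H902B

open Finset Pool.Agent.H902A

/-- bound for the exponents -/
def ZZ (a P T : ℕ) : ℤ :=
  ((T : ℤ) + 1) * (LL T : ℤ) * 16 ^ T * (1 + ((T : ℤ) + 1) * (a * P))

theorem LL_pos (m : ℕ) : 0 < LL m := Nat.lcmUpto_pos m

theorem LL_mono {m T : ℕ} (h : m ≤ T) : LL m ≤ LL T := by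
  apply Nat.le_of_dvd (LL_pos T)
  unfold LL Nat.lcmUpto
  exact Finset.lcm_mono (Finset.Icc_subset_Icc_right h)

theorem ZZ_ge (a P T m k : ℕ) (hmk : m + k ≤ T) :
    ((m : ℤ) + 1) * (LL m : ℤ) * 8 ^ m * 2 ^ (m + k) * (1 + ((T : ℤ) + 1) * (a * P)) ≤
      ZZ a P T := by
  unfold ZZ
  refine mul_le_mul_of_nonneg_right ?_ (by positivity)
  have h1 : ((m : ℤ) + 1) * (LL m : ℤ) ≤ ((T : ℤ) + 1) * (LL T : ℤ) := by
    have h2 : (m : ℤ) ≤ T := by exact_mod_cast (by omega : m ≤ T)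
    have h3 : (LL m : ℤ) ≤ LL T := by exact_mod_cast LL_mono (by omega : m ≤ T)
    exact mul_le_mul (by linarith) h3 (by positivity) (by positivity)
  have h4 : (8 : ℤ) ^ m * 2 ^ (m + k) ≤ 16 ^ T := by
    calc (8 : ℤ) ^ m * 2 ^ (m + k) ≤ 8 ^ T * 2 ^ T :=
          mul_le_mul (pow_le_pow_right₀ (by norm_num) (by omega))
            (pow_le_pow_right₀ (by norm_num) hmk) (by positivity) (by positivity)
      _ = 16 ^ T := by rw [← mul_pow]; norm_num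
  calc ((m : ℤ) + 1) * (LL m : ℤ) * 8 ^ m * 2 ^ (m + k) =
        (((m : ℤ) + 1) * (LL m : ℤ)) * (8 ^ m * 2 ^ (m + k)) := by ring
    _ ≤ (((T : ℤ) + 1) * (LL T : ℤ)) * 16 ^ T :=
        mul_le_mul h1 h4 (by positivity) (by positivity)

theorem one_le_ZZ (a P T : ℕ) : 1 ≤ ZZ a P T := by
  unfold ZZ
  have h1 : (1 : ℤ) ≤ LL T := by exact_mod_cast LL_pos T
  have h2 : (1 : ℤ) ≤ 16 ^ T := one_le_pow₀ (by norm_num)
  have h3 : (1 : ℤ) ≤ (T : ℤ) + 1 := by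
    have : (0 : ℤ) ≤ T := by positivity
    linarith
  have h4 : (1 : ℤ) ≤ 1 + ((T : ℤ) + 1) * (a * P) := by
    have : (0 : ℤ) ≤ ((T : ℤ) + 1) * (a * P) := by positivity
    linarith
  exact one_le_mul_of_one_le_of_one_le (one_le_mul_of_one_le_of_one_le
    (one_le_mul_of_one_le_of_one_le h3 h1) h2) h4

theorem chain (a P T : ℕ) (hT : 1 ≤ T) (hP : P.Prime) (hPT : 2 * T + 1 < P) (hPa : ¬ P ∣ a)
    (N : ℕ) (hN : 1 ≤ N) (hN2 : N ≤ 2 * T) :
    ∃ (c : Fin (T + 1) → ℕ) (e : Fin (T + 1) → ℤ), (∀ i, |e i| ≤ ZZ a P T) ∧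
      (∀ i, (P : ℤ) ^ (2 * T + 1) ∣ (c i : ℤ) - e i) ∧
      ∃ s : ℤ, ¬ (P : ℤ) ∣ s ∧ ∏ i : Fin (T + 1), (1 + ((a : ℤ) * (i.1 : ℤ)) * (P : ℤ)) ^ (c i) =
        1 + s * (P : ℤ) ^ N := by
  rcases Nat.lt_or_ge N 2 with h | h
  · obtain rfl : N = 1 := by omega
    refine ⟨fun i => if i = ⟨1, by omega⟩ then 1 else 0,
      fun i => if i = ⟨1, by omega⟩ then 1 else 0, ?_, ?_, a, ?_, ?_⟩
    · intro i
      have := one_le_ZZ a P T
      beta_reduce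
      split_ifs
      · simpa using this
      · simp only [abs_zero]
        linarith
    · intro i
      beta_reduce
      split_ifs <;> simp
    · intro h1
      exact hPa (by exact_mod_cast h1)
    · rw [Finset.prod_eq_single (⟨1, by omega⟩ : Fin (T + 1))]
      · simp
      · intro i _ hi
        beta_reduce
        rw [if_neg hi, pow_zero]
      · simp
  · obtain ⟨c, e, h1, h2, s, h3, h4⟩ := elem a P T (N - T - 1) (N - 1 - 2 * (N - T - 1)) hP hPT hPa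
      (by omega) (by omega)
    refine ⟨c, e, fun i => (h1 i).trans (ZZ_ge a P T _ _ (by omega)), h2, s, h3, ?_⟩
    rw [h4, show 2 * (N - T - 1) + (N - 1 - 2 * (N - T - 1)) + 1 = N by omega]

theorem exists_kappa (P : ℕ) (hP : P.Prime) (s z : ℤ) (hs : ¬ (P : ℤ) ∣ s) :
    ∃ κ : ℕ, κ < P ∧ (P : ℤ) ∣ z - κ * s := by
  have hcop : IsCoprime (P : ℤ) s := by
    rw [Int.isCoprime_iff_gcd_eq_one]
    have h1 : Prime (P : ℤ) := Nat.prime_iff_prime_int.1 hP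
    exact Int.isCoprime_iff_gcd_eq_one.1 ((Prime.coprime_iff_not_dvd h1).2 hs)
  obtain ⟨p, q, hpq⟩ := hcop
  have hP0 : (0 : ℤ) < P := by exact_mod_cast hP.pos
  have h0 := Int.emod_nonneg (z * q) hP0.ne'
  refine ⟨((z * q) % P).toNat, ?_, ?_⟩
  · have h1 := Int.emod_lt_of_pos (z * q) hP0
    have h2 := Int.toNat_of_nonneg h0
    have h3 : ((((z * q) % P).toNat : ℕ) : ℤ) < P := by rw [h2]; exact h1
    exact_mod_cast h3
  · rw [Int.toNat_of_nonneg h0]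
    have h1 := Int.emod_add_mul_ediv (z * q) P
    refine ⟨z * p + (z * q / P) * s, ?_⟩
    linear_combination (-s) * h1 - z * hpq

theorem cover (a P T : ℕ) (hT : 1 ≤ T) (hP : P.Prime) (hPT : 2 * T + 1 < P) (hPa : ¬ P ∣ a)
    (h : ℤ) (hh : (P : ℤ) ∣ h - 1) (N : ℕ) (hN2 : N ≤ 2 * T) :
    ∃ (c : Fin (T + 1) → ℕ) (e : Fin (T + 1) → ℤ), (∀ i, |e i| ≤ N * (P * ZZ a P T)) ∧
      (∀ i, (P : ℤ) ^ (2 * T + 1) ∣ (c i : ℤ) - e i) ∧
      (P : ℤ) ^ (N + 1) ∣ h - ∏ i : Fin (T + 1),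
        (1 + ((a : ℤ) * (i.1 : ℤ)) * (P : ℤ)) ^ (c i) := by
  induction N with
  | zero =>
    refine ⟨fun _ => 0, fun _ => 0, fun i => by simp, fun i => by simp, ?_⟩
    simpa using hh
  | succ N ih =>
    obtain ⟨c, e, h1, h2, z, hz⟩ := ih (by omega)
    obtain ⟨c', e', h1', h2', s, hs, h3'⟩ := chain a P T hT hP hPT hPa (N + 1) (by omega) hN2
    obtain ⟨κ, hκ, w, hw⟩ := exists_kappa P hP s z hs
    set Q : ℤ := ∏ i : Fin (T + 1), (1 + ((a : ℤ) * (i.1 : ℤ)) * (P : ℤ)) ^ (c i) with hQ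
    obtain ⟨v, hv⟩ := hh
    obtain ⟨q, hq⟩ := pow_exp2 (s * (P : ℤ) ^ (N + 1)) κ
    have hZ := one_le_ZZ a P T
    refine ⟨fun i => c i + κ * c' i, fun i => e i + κ * e' i, ?_, ?_, ?_⟩
    · intro i
      have hκP : (κ : ℤ) ≤ P := by exact_mod_cast hκ.le
      calc |e i + κ * e' i| ≤ |e i| + |(κ : ℤ) * e' i| := abs_add_le _ _
        _ = |e i| + (κ : ℤ) * |e' i| := by rw [abs_mul, abs_of_nonneg (by positivity : (0 : ℤ) ≤ κ)]
        _ ≤ N * (P * ZZ a P T) + P * ZZ a P T := by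
            refine add_le_add (h1 i) (mul_le_mul hκP (h1' i) (abs_nonneg _) (by positivity))
        _ = ((N + 1 : ℕ) : ℤ) * (P * ZZ a P T) := by
            push_cast
            ring
    · intro i
      have h4 := dvd_add (h2 i) ((h2' i).mul_left (κ : ℤ))
      have h5 : (((c i + κ * c' i : ℕ) : ℤ) - (e i + κ * e' i)) =
          ((c i : ℤ) - e i) + κ * ((c' i : ℤ) - e' i) := by
        push_cast
        ring
      rw [h5]
      exact h4
    · have h6 : ∏ i : Fin (T + 1), (1 + ((a : ℤ) * (i.1 : ℤ)) * (P : ℤ)) ^ (c i + κ * c' i) =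
          Q * (1 + s * (P : ℤ) ^ (N + 1)) ^ κ := by
        rw [← h3', hQ, ← Finset.prod_pow, ← Finset.prod_mul_distrib]
        refine Finset.prod_congr rfl fun i _ => ?_
        rw [pow_add, mul_comm κ (c' i), pow_mul]
      rw [h6, hq]
      -- `Q = h - P ^ (N + 1) z = 1 + P v - P ^ (N + 1) z`
      have hQ2 : Q = 1 + P * v - (P : ℤ) ^ (N + 1) * z := by linarith
      refine ⟨w - κ * s * (v - (P : ℤ) ^ N * z) - Q * s ^ 2 * (P : ℤ) ^ N * q, ?_⟩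
      have h7 : h = Q + (P : ℤ) ^ (N + 1) * z := by linarith
      have h8 : Q - 1 = P * (v - (P : ℤ) ^ N * z) := by
        rw [hQ2]
        ring
      rw [h7]
      linear_combination (P : ℤ) ^ (N + 1) * hw - κ * s * (P : ℤ) ^ (N + 1) * h8

theorem period (u : ℤ) (P : ℕ) (hP : Odd P) (r f g : ℕ) (h : (P : ℤ) ^ r ∣ (g : ℤ) - f) :
    (P : ℤ) ^ r ∣ (1 + u * P) ^ g - (1 + u * P) ^ f := by
  wlog hfg : f ≤ g generalizing f g
  · have h1 : (P : ℤ) ^ r ∣ (f : ℤ) - g := by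
      have := (dvd_neg (α := ℤ)).2 h
      rwa [neg_sub] at this
    have h2 := this g f h1 (by omega)
    have h3 := (dvd_neg (α := ℤ)).2 h2
    rwa [neg_sub] at h3
  obtain ⟨q, hq⟩ := lte u P hP r
  have hP0 : (P : ℤ) ^ r ∣ (1 + u * P) ^ (P ^ r) - 1 := by
    rw [hq]
    refine ⟨u * P + (P : ℤ) ^ 2 * q, ?_⟩
    ring
  obtain ⟨j, hj⟩ : P ^ r ∣ g - f := by
    have h1 : ((g - f : ℕ) : ℤ) = (g : ℤ) - f := Nat.cast_sub hfg
    have h2 : ((P ^ r : ℕ) : ℤ) ∣ ((g - f : ℕ) : ℤ) := by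
      rw [h1]
      exact_mod_cast h
    exact_mod_cast h2
  have h4 : g = f + P ^ r * j := by omega
  have h5 : (P : ℤ) ^ r ∣ ((1 + u * P) ^ (P ^ r)) ^ j - 1 := by
    have := sub_dvd_pow_sub_pow ((1 + u * (P : ℤ)) ^ (P ^ r)) 1 j
    rw [one_pow] at this
    exact hP0.trans this
  rw [h4, pow_add, pow_mul]
  have h6 : (1 + u * (P : ℤ)) ^ f * ((1 + u * P) ^ (P ^ r)) ^ j - (1 + u * P) ^ f =
      (1 + u * P) ^ f * (((1 + u * P) ^ (P ^ r)) ^ j - 1) := by ring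
  rw [h6]
  exact h5.mul_left _

/-- the exponents -/
theorem exponents (a q P T : ℕ) (hT : 1 ≤ T) (hP : P.Prime) (hPT : 2 * T + 1 < P)
    (hPa : ¬ P ∣ a) (hPq : ¬ P ∣ q) (D : ℕ) (hD : 2 * (T : ℤ) * (P * ZZ q P T) ≤ D) :
    ∃ f : Fin (T + 1) → ℕ, (∀ i, (D : ℤ) - 2 * T * (P * ZZ q P T) ≤ f i) ∧
      (∀ i, (f i : ℤ) ≤ D + 2 * T * (P * ZZ q P T)) ∧
      (P : ℤ) ^ (2 * T + 1) ∣ (a + P) * ∏ i : Fin (T + 1),
        (1 + ((q : ℤ) * (i.1 : ℤ)) * (P : ℤ)) ^ (f i) - a := by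
  set G0 : ℤ := ∏ i : Fin (T + 1), (1 + ((q : ℤ) * (i.1 : ℤ)) * (P : ℤ)) ^ D with hG0
  have hPp : Prime (P : ℤ) := Nat.prime_iff_prime_int.1 hP
  have hodd : Odd P := hP.odd_of_ne_two (by omega)
  have hG1 : (P : ℤ) ∣ G0 - 1 := by
    have h1 : ∀ i : Fin (T + 1), (P : ℤ) ∣ (1 + ((q : ℤ) * (i.1 : ℤ)) * (P : ℤ)) ^ D - 1 := by
      intro i
      have h2 := sub_dvd_pow_sub_pow (1 + ((q : ℤ) * (i.1 : ℤ)) * (P : ℤ)) 1 D
      rw [one_pow, add_sub_cancel_left] at h2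
      exact (dvd_mul_left _ _).trans h2
    rw [hG0]
    clear_value G0
    induction (univ : Finset (Fin (T + 1))) using Finset.induction_on with
    | empty => simp
    | insert b s hb ih =>
      rw [Finset.prod_insert hb]
      have h3 := dvd_add ((h1 b).mul_right (∏ i ∈ s, (1 + ((q : ℤ) * (i.1 : ℤ)) * (P : ℤ)) ^ D)) ih
      rwa [sub_mul, one_mul, sub_add_sub_cancel] at h3
  obtain ⟨v, hv⟩ := hG1
  have hcop : IsCoprime ((P : ℤ) ^ (2 * T + 1)) ((a + P) * G0) := by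
    apply IsCoprime.pow_left
    rw [Prime.coprime_iff_not_dvd hPp]
    intro hd
    rcases hPp.dvd_or_dvd hd with h1 | h1
    · have h2 : (P : ℤ) ∣ a := by
        have := dvd_sub h1 (dvd_refl (P : ℤ))
        rwa [add_sub_cancel_right] at this
      exact hPa (by exact_mod_cast h2)
    · have h2 : (P : ℤ) ∣ 1 := by
        have h3 : (1 : ℤ) = G0 - P * v := by linarith
        rw [h3]
        exact dvd_sub h1 (dvd_mul_right _ _)
      exact hPp.not_isUnit (isUnit_of_dvd_one h2)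
  obtain ⟨p, w, hpw⟩ := hcop
  have hh : (P : ℤ) ∣ a * w - 1 := by
    refine ⟨-(p * (P : ℤ) ^ (2 * T)) - w * G0 - a * w * v, ?_⟩
    have h1 : (P : ℤ) ^ (2 * T + 1) = (P : ℤ) ^ (2 * T) * P := pow_succ _ _
    rw [h1] at hpw
    have h2 : G0 = 1 + P * v := by linarith
    linear_combination hpw - a * w * hv
  obtain ⟨c, e, h1, h2, h3⟩ := cover q P T hT hP hPT hPq (a * w) hh (2 * T) le_rfl
  have hb : ∀ i, |e i| ≤ 2 * (T : ℤ) * (P * ZZ q P T) := by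
    intro i
    have := h1 i
    push_cast at this
    exact this
  have hnn : ∀ i, 0 ≤ (D : ℤ) + e i := by
    intro i
    have := (abs_le.1 (hb i)).1
    linarith
  have hf : ∀ i, (((D : ℤ) + e i).toNat : ℤ) = (D : ℤ) + e i := fun i =>
    Int.toNat_of_nonneg (hnn i)
  refine ⟨fun i => ((D : ℤ) + e i).toNat, ?_, ?_, ?_⟩
  · intro i
    rw [hf i]
    have := (abs_le.1 (hb i)).1
    linarith
  · intro i
    rw [hf i]
    have h4 := (abs_le.1 (hb i)).2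
    linarith
  · -- replace the exponents
    have h4 : ∀ i, (P : ℤ) ^ (2 * T + 1) ∣
        (1 + ((q : ℤ) * (i.1 : ℤ)) * (P : ℤ)) ^ (((D : ℤ) + e i).toNat) -
        (1 + ((q : ℤ) * (i.1 : ℤ)) * (P : ℤ)) ^ (D + c i) := by
      intro i
      apply period _ _ hodd
      rw [hf i]
      have h8 := (dvd_neg (α := ℤ)).2 (h2 i)
      have h9 : ((D : ℤ) + e i) - ((D + c i : ℕ) : ℤ) = -((c i : ℤ) - e i) := by
        push_cast
        ring
      rw [h9]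
      exact h8
    have h5 : (P : ℤ) ^ (2 * T + 1) ∣
        ∏ i : Fin (T + 1), (1 + ((q : ℤ) * (i.1 : ℤ)) * (P : ℤ)) ^ (((D : ℤ) + e i).toNat) -
        ∏ i : Fin (T + 1), (1 + ((q : ℤ) * (i.1 : ℤ)) * (P : ℤ)) ^ (D + c i) := by
      induction (univ : Finset (Fin (T + 1))) using Finset.induction_on with
      | empty => simp
      | insert b s hb' ih =>
        rw [Finset.prod_insert hb', Finset.prod_insert hb']
        set X1 := ∏ i ∈ s, (1 + ((q : ℤ) * (i.1 : ℤ)) * (P : ℤ)) ^ (((D : ℤ) + e i).toNat)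
        set X2 := ∏ i ∈ s, (1 + ((q : ℤ) * (i.1 : ℤ)) * (P : ℤ)) ^ (D + c i)
        have h6 := dvd_add ((h4 b).mul_right X1)
          (ih.mul_left ((1 + ((q : ℤ) * (b.1 : ℤ)) * (P : ℤ)) ^ (D + c b)))
        have h8 : (1 + ((q : ℤ) * (b.1 : ℤ)) * (P : ℤ)) ^ (((D : ℤ) + e b).toNat) * X1 -
            (1 + ((q : ℤ) * (b.1 : ℤ)) * (P : ℤ)) ^ (D + c b) * X2 =
            ((1 + ((q : ℤ) * (b.1 : ℤ)) * (P : ℤ)) ^ (((D : ℤ) + e b).toNat) -
            (1 + ((q : ℤ) * (b.1 : ℤ)) * (P : ℤ)) ^ (D + c b)) * X1 +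
            (1 + ((q : ℤ) * (b.1 : ℤ)) * (P : ℤ)) ^ (D + c b) * (X1 - X2) := by ring
        rw [h8]
        exact h6
    have h6 : ∏ i : Fin (T + 1), (1 + ((q : ℤ) * (i.1 : ℤ)) * (P : ℤ)) ^ (D + c i) =
        G0 * ∏ i : Fin (T + 1), (1 + ((q : ℤ) * (i.1 : ℤ)) * (P : ℤ)) ^ (c i) := by
      rw [hG0, ← Finset.prod_mul_distrib]
      refine Finset.prod_congr rfl fun i _ => ?_
      rw [pow_add]
    rw [h6] at h5
    set X := ∏ i : Fin (T + 1), (1 + ((q : ℤ) * (i.1 : ℤ)) * (P : ℤ)) ^ (((D : ℤ) + e i).toNat)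
    set Y := ∏ i : Fin (T + 1), (1 + ((q : ℤ) * (i.1 : ℤ)) * (P : ℤ)) ^ (c i)
    -- `(a + P) X - a = (a + P) (X - G0 Y) - (a + P) G0 (a w - Y) + a ((a + P) G0 w - 1)`
    have h7 := dvd_add (dvd_sub (h5.mul_left ((a : ℤ) + P)) (h3.mul_left (((a : ℤ) + P) * G0)))
      ((dvd_refl ((P : ℤ) ^ (2 * T + 1))).mul_left (-(a * p)))
    have h8 : ((a : ℤ) + P) * X - a = ((a : ℤ) + P) * (X - G0 * Y) -
        ((a : ℤ) + P) * G0 * (a * w - Y) + -(a * p) * (P : ℤ) ^ (2 * T + 1) := by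
      linear_combination (a : ℤ) * hpw
    rw [h8]
    exact h7

end Pool.Agent.H902B
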