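import Mathlib

set_option autoImplicit false

/-!
Differences of powers at zero, and the formula for the derivative in terms of differences.
-/

namespace Pool.Agent.H902B

open Finset

/-- the `n`-th difference of `t ^ ν` at zero -/
def d : ℕ → ℕ → ℤ
  | 0, n => if n = 0 then 1 else 0
  | _ + 1, 0 => 0
  | ν + 1, n + 1 => (n + 1) * (d ν (n + 1) + d ν n)

theorem d_succ (ν n : ℕ) : d (ν + 1) (n + 1) = ((n : ℤ) + 1) * (d ν (n + 1) + d ν n) := by
  rw [d]

theorem d_eq_zero (ν : ℕ) : ∀ n, ν < n → d ν n = 0 := by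
  induction ν with
  | zero => intro n hn; simp [d, Nat.pos_iff_ne_zero.1 hn]
  | succ ν ih =>
    intro n hn
    obtain ⟨n, rfl⟩ : ∃ n', n = n' + 1 := ⟨n - 1, by omega⟩
    rw [d, ih (n + 1) (by omega), ih n (by omega)]
    simp

theorem d_diag (ν : ℕ) : d ν ν = (ν.factorial : ℤ) := by
  induction ν with
  | zero => simp [d]
  | succ ν ih =>
    rw [d, ih, d_eq_zero ν (ν + 1) (by omega), Nat.factorial_succ]
    push_cast
    ring

theorem d_zero_right (ν : ℕ) : d (ν + 1) 0 = 0 := by rw [d]

theorem d_zero_left (n : ℕ) (hn : 1 ≤ n) : d 0 n = 0 := by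
  rw [d, if_neg (by omega)]

theorem sum_choose (ν : ℕ) : ∀ (n M : ℕ), n < M →
    ∑ i ∈ range M, (-1 : ℤ) ^ (n + i) * (n.choose i : ℤ) * (i : ℤ) ^ ν = d ν n := by
  induction ν with
  | zero =>
    intro n M hM
    have h1 : ∑ i ∈ range M, (-1 : ℤ) ^ (n + i) * (n.choose i : ℤ) * (i : ℤ) ^ 0 =
        (-1) ^ n * ∑ i ∈ range (n + 1), (-1 : ℤ) ^ i * (n.choose i : ℤ) := by
      rw [Finset.mul_sum, ← Finset.sum_subset (Finset.range_mono (by omega : n + 1 ≤ M))]
      · refine Finset.sum_congr rfl fun i _ => ?_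
        rw [pow_add]
        ring
      · intro i _ hi
        rw [Finset.mem_range, not_lt] at hi
        rw [Nat.choose_eq_zero_of_lt (by omega)]
        simp
    rw [h1, Int.alternating_sum_range_choose, d]
    split_ifs with h
    · subst h
      simp
    · simp
  | succ ν ih =>
    intro n M hM
    cases n with
    | zero =>
      rw [d_zero_right]
      refine Finset.sum_eq_zero fun i _ => ?_
      cases i with
      | zero => simp
      | succ i => simp
    | succ n =>
      rw [d, ← ih (n + 1) M hM, ← ih n M (by omega), ← Finset.sum_add_distrib, Finset.mul_sum]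
      refine Finset.sum_congr rfl fun i _ => ?_
      have h2 : (i : ℤ) * ((n + 1).choose i : ℤ) =
          (n + 1) * (((n + 1).choose i : ℤ) - (n.choose i : ℤ)) := by
        cases i with
        | zero => simp
        | succ i =>
          have h3 := Nat.add_one_mul_choose_eq n i
          have h4 := Nat.choose_succ_succ' n i
          have h5 : ((n : ℤ) + 1) * (n.choose i : ℤ) = ((n + 1).choose (i + 1) : ℤ) * (i + 1) := by
            exact_mod_cast h3
          have h6 : ((n + 1).choose (i + 1) : ℤ) = n.choose i + n.choose (i + 1) := by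
            exact_mod_cast h4
          push_cast
          linear_combination (-1 : ℤ) * h5 - ((n : ℤ) + 1) * h6
      have h7 : (-1 : ℤ) ^ (n + 1 + i) = - (-1 : ℤ) ^ (n + i) := by
        rw [show n + 1 + i = n + i + 1 by ring, pow_succ]
        ring
      rw [h7, pow_succ]
      linear_combination (- (-1 : ℤ) ^ (n + i) * (i : ℤ) ^ ν) * h2

/-- coefficient of the logarithm -/
def c (k : ℕ) : ℚ := (-1) ^ k / (k + 1)

theorem tele (f : ℕ → ℚ) (K : ℕ) :
    ∑ k ∈ range K, (-1 : ℚ) ^ k * (f (k + 1) + f k) = f 0 - (-1) ^ K * f K := by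
  induction K with
  | zero => simp
  | succ K ih =>
    rw [Finset.sum_range_succ, ih, pow_succ]
    ring

theorem d_der (ν : ℕ) : ∀ (j K : ℕ), ν + 1 ≤ K →
    ((ν : ℚ) + 1) * (d ν j : ℚ) = ∑ k ∈ range K, c k * (d (ν + 1) (j + k + 1) : ℚ) := by
  induction ν with
  | zero =>
    intro j K hK
    rw [Finset.sum_eq_single 0]
    · rw [show j + 0 + 1 = j + 1 by ring, d_succ 0 j]
      rcases Nat.eq_zero_or_pos j with h | h
      · subst h
        simp [d, c]
      · rw [d_zero_left (j + 1) (by omega), d_zero_left j h]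
        simp
    · intro k _ hk
      rw [d_succ 0 (j + k), d_zero_left (j + k + 1) (by omega), d_zero_left (j + k) (by omega)]
      simp
    · intro h
      exact absurd (Finset.mem_range.2 (by omega)) h
  | succ ν ih =>
    intro j K hK
    have h1 : ∀ k, c k * (d (ν + 1 + 1) (j + k + 1) : ℚ) =
        (j : ℚ) * (c k * (d (ν + 1) (j + k + 1) : ℚ)) + (j : ℚ) * (c k * (d (ν + 1) (j + k) : ℚ)) +
        (-1) ^ k * ((d (ν + 1) (j + (k + 1)) : ℚ) + (d (ν + 1) (j + k) : ℚ)) := by
      intro k
      rw [d]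
      have h2 : c k * ((j : ℚ) + k + 1) = j * c k + (-1) ^ k := by
        unfold c
        have : ((k : ℚ) + 1) ≠ 0 := by positivity
        field_simp
        ring
      push_cast
      rw [show j + (k + 1) = j + k + 1 by ring]
      linear_combination ((d (ν + 1) (j + k + 1) : ℚ) + (d (ν + 1) (j + k) : ℚ)) * h2
    rw [Finset.sum_congr rfl fun k _ => h1 k, Finset.sum_add_distrib, Finset.sum_add_distrib,
      ← Finset.mul_sum, ← Finset.mul_sum,
      tele (fun k => (d (ν + 1) (j + k) : ℚ)) K, ← ih j K (by omega),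
      d_eq_zero (ν + 1) (j + K) (by omega)]
    rcases Nat.eq_zero_or_pos j with h | h
    · subst h
      simp [d_zero_right]
    · obtain ⟨j, rfl⟩ : ∃ j', j = j' + 1 := ⟨j - 1, by omega⟩
      have h3 : ∑ k ∈ range K, c k * (d (ν + 1) (j + 1 + k) : ℚ) = ((ν : ℚ) + 1) * (d ν j : ℚ) := by
        rw [ih j K (by omega)]
        refine Finset.sum_congr rfl fun k _ => ?_
        rw [show j + 1 + k = j + k + 1 by ring]
      rw [h3]
      have h4 : (d (ν + 1) (j + 1) : ℚ) = ((j : ℚ) + 1) * ((d ν (j + 1) : ℚ) + (d ν j : ℚ)) := by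
        rw [d]
        push_cast
        ring
      rw [add_zero, h4]
      push_cast
      ring

end Pool.Agent.H902B
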