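import Pool.Agent.H902B.Asy
import Pool.Agent.H902A.Core

set_option autoImplicit false

/-!
Many abc triples with a fixed term and `c > rad (a b c) exp ((log log c) ^ 2 / 50)`.
-/

namespace Pool.Agent.H902B

open Finset Pool.Agent.H902A

/-- the number `c` -/
def cc (a q P T : ℕ) (f : Fin (T + 1) → ℕ) : ℕ :=
  (a + P) * ∏ i : Fin (T + 1), (1 + q * i.1 * P) ^ (f i)

theorem coprime_rad (a m : ℕ) (ha : a ≠ 0) : Nat.Coprime a (1 + rad a * m) := by
  apply Nat.Coprime.symm
  apply Nat.coprime_of_dvd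
  intro k hk h1 h2
  have h3 : k ∣ rad a :=
    Finset.dvd_prod_of_mem (fun p => p) (Nat.mem_primeFactors.2 ⟨hk, h2, ha⟩)
  have h4 : k ∣ 1 := (Nat.dvd_add_left (h3.mul_right m)).1 h1
  exact hk.one_lt.ne' (Nat.dvd_one.1 h4)

theorem one_le_prod (q P T : ℕ) (f : Fin (T + 1) → ℕ) :
    1 ≤ ∏ i : Fin (T + 1), (1 + q * i.1 * P) ^ (f i) := by
  apply Nat.one_le_iff_ne_zero.2
  apply Finset.prod_ne_zero_iff.2
  intro i _
  positivity

theorem rad_bound (a P T : ℕ) (ha : 1 ≤ a) (hP : P.Prime) (f : Fin (T + 1) → ℕ) (c : ℕ)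
    (hc : c = cc a (rad a) P T f) (hac : a < c) (hdvd : P ^ (2 * T + 1) ∣ c - a) :
    rad (a * (c - a) * c) * P ^ (2 * T) ≤
      (rad a * (a + P) * ∏ i : Fin (T + 1), (1 + rad a * i.1 * P)) * c := by
  obtain ⟨b', hb'⟩ := hdvd
  have hb'0 : b' ≠ 0 := by
    rintro rfl
    omega
  have h1 : rad (c - a) ≤ P * b' := by
    rw [hb']
    exact (rad_mul_le _ _).trans (Nat.mul_le_mul ((rad_pow_le _ _).trans (rad_le hP.ne_zero))
      (rad_le hb'0))
  have h2 : rad c ≤ (a + P) * ∏ i : Fin (T + 1), (1 + rad a * i.1 * P) := by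
    rw [hc]
    unfold cc
    refine (rad_mul_le _ _).trans (Nat.mul_le_mul (rad_le (by omega)) ?_)
    refine (rad_prod_le _ _).trans (Finset.prod_le_prod' fun i _ => ?_)
    exact (rad_pow_le _ _).trans (rad_le (by omega))
  have h3 : rad (a * (c - a) * c) ≤ rad a * (P * b') *
      ((a + P) * ∏ i : Fin (T + 1), (1 + rad a * i.1 * P)) := by
    refine (rad_mul_le _ _).trans (Nat.mul_le_mul ?_ h2)
    exact (rad_mul_le _ _).trans (Nat.mul_le_mul_left _ h1)
  calc rad (a * (c - a) * c) * P ^ (2 * T)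
      ≤ rad a * (P * b') * ((a + P) * ∏ i : Fin (T + 1), (1 + rad a * i.1 * P)) * P ^ (2 * T) :=
        Nat.mul_le_mul_right _ h3
    _ = (rad a * (a + P) * ∏ i : Fin (T + 1), (1 + rad a * i.1 * P)) * (P ^ (2 * T + 1) * b') := by
        ring
    _ ≤ (rad a * (a + P) * ∏ i : Fin (T + 1), (1 + rad a * i.1 * P)) * c :=
        Nat.mul_le_mul_left _ (by omega)

theorem log_c (a q P T : ℕ) (hP : 1 ≤ P) (f : Fin (T + 1) → ℕ) :
    Real.log (cc a q P T f : ℝ) = Real.log ((a : ℝ) + P) +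
      ∑ i : Fin (T + 1), (f i : ℝ) * Real.log (1 + (q : ℝ) * (i.1 : ℝ) * P) := by
  have hP0 : (1 : ℝ) ≤ P := by exact_mod_cast hP
  have hpos : ∀ i : Fin (T + 1), (0 : ℝ) < 1 + (q : ℝ) * (i.1 : ℝ) * P := fun i => by positivity
  have h1 : (cc a q P T f : ℝ) = ((a : ℝ) + P) *
      ∏ i : Fin (T + 1), (1 + (q : ℝ) * (i.1 : ℝ) * P) ^ (f i) := by
    unfold cc
    push_cast
    ring
  rw [h1, Real.log_mul (by positivity) (Finset.prod_ne_zero_iff.2 fun i _ =>
    pow_ne_zero _ (hpos i).ne'), Real.log_prod (fun i _ => pow_ne_zero _ (hpos i).ne')]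
  congr 1
  refine Finset.sum_congr rfl fun i _ => ?_
  rw [Real.log_pow]

theorem log_aP (a P : ℕ) (ha : 1 ≤ a) (hP : 1 ≤ P) :
    Real.log ((a : ℝ) + P) ≤ Real.log 2 + Real.log a + Real.log P := by
  have ha' : (1 : ℝ) ≤ a := by exact_mod_cast ha
  have hP' : (1 : ℝ) ≤ P := by exact_mod_cast hP
  rw [← Real.log_mul (by norm_num) (by positivity), ← Real.log_mul (by positivity) (by positivity)]
  apply Real.log_le_log (by positivity)
  nlinarith

theorem prod_le (q P T : ℕ) (hq : 1 ≤ q) (hP : 1 ≤ P) (hT : 1 ≤ T) :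
    ((∏ i : Fin (T + 1), (1 + q * i.1 * P) : ℕ) : ℝ) ≤ (2 * q * T * P : ℝ) ^ T := by
  rw [Fin.prod_univ_succ]
  have h1 : ∏ i : Fin T, (1 + q * (i.succ).1 * P) ≤ (2 * q * T * P) ^ T := by
    calc ∏ i : Fin T, (1 + q * (i.succ).1 * P) ≤ ∏ _i : Fin T, (2 * q * T * P) := by
          refine Finset.prod_le_prod' fun i _ => ?_
          have h2 : (i.succ).1 ≤ T := by
            have := i.2
            simp only [Fin.val_succ]
            omega
          have h3 : q * (i.succ).1 * P ≤ q * T * P := by gcongr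
          have h4 : 1 ≤ q * T * P := by
            have : 0 < q * T * P := by positivity
            omega
          have h5 : 2 * q * T * P = q * T * P + q * T * P := by ring
          omega
      _ = (2 * q * T * P) ^ T := by simp
  simp only [Fin.val_zero, mul_zero, zero_mul, add_zero, one_mul]
  exact_mod_cast h1

theorem props (T : ℕ) (hT : Big T) (L : ℝ) (hL1 : 9 * (T : ℝ) ≤ Real.log L)
    (hL2 : Real.log L < 9 * ((T : ℝ) + 1)) (hL0 : 0 < L) (a P : ℕ) (ha : 1 ≤ a)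
    (hlq : Real.log (rad a) ≤ 9 * ((T : ℝ) + 1) / 200)
    (hla : Real.log a ≤ Real.log L ^ 2 / 10000) (hP : P.Prime) (hPa : ¬ P ∣ a)
    (hP1 : 8 ^ T < P) (hP2 : P ≤ 2 * 8 ^ T) (f : Fin (T + 1) → ℕ)
    (hf1 : ∀ i, L / 2 ≤ f i) (hf2 : ∀ i, (f i : ℝ) ≤ 4 * L)
    (hdvd : (P : ℤ) ^ (2 * T + 1) ∣ (a + P) * ∏ i : Fin (T + 1),
        (1 + ((rad a : ℤ) * (i.1 : ℤ)) * (P : ℤ)) ^ (f i) - a)
    (c : ℕ) (hc : c = cc a (rad a) P T f) :
    a < c ∧ Nat.Coprime a c ∧ L ≤ Real.log c ∧ Real.log c ≤ L * Real.log L ^ 2 ∧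
      (rad (a * (c - a) * c) : ℝ) * Real.exp (Real.log (Real.log c) ^ 2 / 50) < c := by
  have hbig := hT
  obtain ⟨hT1, hT2, hT3⟩ := hT
  set q : ℕ := rad a with hq
  have hq1 : 1 ≤ q := rad_pos a
  have hT1' : (10000 : ℝ) ≤ T := by exact_mod_cast hT1
  have hP1' : 1 ≤ P := hP.one_le
  have hqR : (1 : ℝ) ≤ q := by exact_mod_cast hq1
  have haR : (1 : ℝ) ≤ a := by exact_mod_cast ha
  have hPR : (1 : ℝ) ≤ P := by exact_mod_cast hP1'
  have hPR2 : (P : ℝ) ≤ 2 * 8 ^ T := by exact_mod_cast hP2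
  have hPR1 : (8 : ℝ) ^ T ≤ P := by exact_mod_cast hP1.le
  have hlogP1 : (T : ℝ) * Real.log 8 ≤ Real.log P := by
    rw [← Real.log_pow]
    exact Real.log_le_log (by positivity) hPR1
  have hlogP2 : Real.log P ≤ Real.log 2 + T * Real.log 8 := by
    rw [← Real.log_pow, ← Real.log_mul (by norm_num) (by positivity)]
    exact Real.log_le_log (by positivity) hPR2
  have hl2a := log2_lo
  have hl2b := log2_hi
  have hl8 := log8
  have hlL0 : 0 < Real.log L := by linarith
  have hL1' : 1 < L := by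
    by_contra h
    push Not at h
    have := Real.log_nonpos hL0.le h
    linarith
  have hprod := one_le_prod q P T f
  have hac : a < c := by
    rw [hc]
    unfold cc
    have : (a + P) * 1 ≤ (a + P) * ∏ i : Fin (T + 1), (1 + q * i.1 * P) ^ (f i) :=
      Nat.mul_le_mul_left _ hprod
    omega
  have hdvdN : P ^ (2 * T + 1) ∣ c - a := by
    have h1 : ((c - a : ℕ) : ℤ) = (a + P) * ∏ i : Fin (T + 1),
        (1 + ((q : ℤ) * (i.1 : ℤ)) * (P : ℤ)) ^ (f i) - a := by
      rw [Nat.cast_sub hac.le, hc]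
      unfold cc
      push_cast
      ring
    have h2 : ((P ^ (2 * T + 1) : ℕ) : ℤ) ∣ ((c - a : ℕ) : ℤ) := by
      rw [h1]
      push_cast
      exact hdvd
    exact_mod_cast h2
  have hcop : Nat.Coprime a c := by
    rw [hc]
    unfold cc
    refine Nat.Coprime.mul_right ?_ ?_
    · exact (Nat.coprime_self_add_right).2 ((Nat.Prime.coprime_iff_not_dvd hP).2 hPa).symm
    · refine Nat.Coprime.prod_right fun i _ => Nat.Coprime.pow_right _ ?_
      rw [hq, mul_assoc]
      exact coprime_rad a _ (by omega)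
  have hlogc := log_c a q P T hP1' f
  rw [← hc] at hlogc
  have hterm0 : ∀ i : Fin (T + 1), 0 ≤ Real.log (1 + (q : ℝ) * (i.1 : ℝ) * P) := fun i =>
    Real.log_nonneg (by
      have : (0 : ℝ) ≤ (q : ℝ) * (i.1 : ℝ) * P := by positivity
      linarith)
  have hlogaP0 : 0 ≤ Real.log ((a : ℝ) + P) := Real.log_nonneg (by linarith)
  have hlower : L ≤ Real.log c := by
    rw [hlogc]
    have h1 : (f ⟨1, by omega⟩ : ℝ) * Real.log (1 + (q : ℝ) * ((1 : ℕ) : ℝ) * P) ≤
        ∑ i : Fin (T + 1), (f i : ℝ) * Real.log (1 + (q : ℝ) * (i.1 : ℝ) * P) :=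
      Finset.single_le_sum (f := fun i : Fin (T + 1) =>
        (f i : ℝ) * Real.log (1 + (q : ℝ) * (i.1 : ℝ) * P))
        (fun i _ => mul_nonneg (by positivity) (hterm0 i))
        (Finset.mem_univ (⟨1, by omega⟩ : Fin (T + 1)))
    have h2 : Real.log P ≤ Real.log (1 + (q : ℝ) * ((1 : ℕ) : ℝ) * P) := by
      apply Real.log_le_log (by linarith)
      push_cast
      nlinarith
    have h3 : (2 : ℝ) ≤ Real.log (1 + (q : ℝ) * ((1 : ℕ) : ℝ) * P) := by
      have : (2 : ℝ) ≤ T * Real.log 8 := by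
        rw [hl8]
        nlinarith
      linarith
    have h4 := hf1 ⟨1, by omega⟩
    have h5 : L ≤ (f ⟨1, by omega⟩ : ℝ) * Real.log (1 + (q : ℝ) * ((1 : ℕ) : ℝ) * P) := by
      calc L = L / 2 * 2 := by ring
        _ ≤ (f ⟨1, by omega⟩ : ℝ) * Real.log (1 + (q : ℝ) * ((1 : ℕ) : ℝ) * P) :=
          mul_le_mul h4 h3 (by norm_num) (by positivity)
    linarith
  have hlogaP := log_aP a P ha hP1'
  have hsumle : ∑ i : Fin (T + 1), (f i : ℝ) * Real.log (1 + (q : ℝ) * (i.1 : ℝ) * P) ≤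
      ((T : ℝ) + 1) * (4 * L * (3 * T)) := by
    have h1 : ∀ i ∈ (univ : Finset (Fin (T + 1))),
        (f i : ℝ) * Real.log (1 + (q : ℝ) * (i.1 : ℝ) * P) ≤ 4 * L * (3 * T) := by
      intro i _
      have h2 : Real.log (1 + (q : ℝ) * (i.1 : ℝ) * P) ≤ 3 * T := by
        refine le_trans (Real.log_le_log (by positivity) ?_)
          (F2 T hbig (q : ℝ) (P : ℝ) hqR hlq hPR hPR2)
        have h3 : (i.1 : ℝ) ≤ T := by
          have := i.2
          exact_mod_cast (by omega : i.1 ≤ T)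
        gcongr
      exact mul_le_mul (hf2 i) h2 (hterm0 i) (by linarith)
    refine (Finset.sum_le_card_nsmul _ _ _ h1).trans (le_of_eq ?_)
    rw [Finset.card_univ, Fintype.card_fin, nsmul_eq_mul]
    push_cast
    ring
  have hlL2 : 81 * (T : ℝ) ^ 2 ≤ Real.log L ^ 2 := by
    have h0 := pow_le_pow_left₀ (by positivity) hL1 2
    have h00 : (9 * (T : ℝ)) ^ 2 = 81 * (T : ℝ) ^ 2 := by ring
    linarith
  have hupper : Real.log c ≤ L * Real.log L ^ 2 := by
    rw [hlogc]
    set S2 : ℝ := Real.log L ^ 2 with hS2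
    have hS20 : 0 ≤ S2 := by positivity
    have hX1 : S2 ≤ L * S2 := by
      have := mul_le_mul_of_nonneg_right hL1'.le hS20
      linarith
    have hTT : (T : ℝ) * 10000 ≤ (T : ℝ) ^ 2 := by
      rw [sq]
      exact mul_le_mul_of_nonneg_left hT1' (by linarith)
    have h1 : ((T : ℝ) + 1) * (4 * L * (3 * T)) ≤ 13 * L * (T : ℝ) ^ 2 := by
      have h0 : 12 * ((T : ℝ) + 1) * T ≤ 13 * (T : ℝ) ^ 2 := by
        have h00 : 12 * ((T : ℝ) + 1) * T = 12 * (T : ℝ) ^ 2 + 12 * T := by ring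
        rw [h00]
        linarith
      have := mul_le_mul_of_nonneg_left h0 hL0.le
      linarith
    have h2 : 13 * L * (T : ℝ) ^ 2 ≤ 13 / 81 * (L * S2) := by
      have := mul_le_mul_of_nonneg_left hlL2 (by linarith : (0 : ℝ) ≤ 13 / 81 * L)
      linarith
    have h4 : Real.log P ≤ (T : ℝ) ^ 2 := by
      rw [hl8] at hlogP2
      have : (T : ℝ) * (3 * Real.log 2) ≤ T * 3 :=
        mul_le_mul_of_nonneg_left (by linarith) (by linarith)
      linarith
    linarith
  refine ⟨hac, hcop, hlower, hupper, ?_⟩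
  -- the double logarithm
  set ll : ℝ := Real.log (Real.log c) with hll
  have hlc1 : 1 ≤ Real.log c := by linarith
  have hll0 : 0 ≤ ll := Real.log_nonneg hlc1
  have hllle : ll ≤ 9.01 * T := by
    have h1 : ll ≤ Real.log (L * Real.log L ^ 2) := Real.log_le_log (by linarith) hupper
    rw [Real.log_mul (by linarith) (by positivity), Real.log_pow] at h1
    have h2 : Real.log (Real.log L) ≤ 4 * Real.log 2 + (T : ℝ) / 1000 := by
      have h3 : Real.log (Real.log L) ≤ Real.log (16 * ((T : ℝ) + 2)) := by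
        apply Real.log_le_log hlL0
        linarith
      rw [Real.log_mul (by norm_num) (by linarith), show (16 : ℝ) = 2 ^ 4 by norm_num,
        Real.log_pow] at h3
      push_cast at h3
      linarith
    push_cast at h1
    linarith
  have hA : Real.log a ≤ (9 * ((T : ℝ) + 1)) ^ 2 / 10000 := by
    have h1 := pow_le_pow_left₀ hlL0.le hL2.le 2
    linarith
  have hgain := F3 T hbig (Real.log a) (Real.log q) ll hA hlq hll0 hllle
  have hX : ((q * (a + P) * ∏ i : Fin (T + 1), (1 + q * i.1 * P) : ℕ) : ℝ) *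
      Real.exp (ll ^ 2 / 50) < (P : ℝ) ^ (2 * T) := by
    have h1 : ((q * (a + P) * ∏ i : Fin (T + 1), (1 + q * i.1 * P) : ℕ) : ℝ) ≤
        q * ((a : ℝ) + P) * (2 * q * T * P : ℝ) ^ T := by
      rw [Nat.cast_mul, Nat.cast_mul, Nat.cast_add]
      exact mul_le_mul_of_nonneg_left (prod_le q P T hq1 hP1' (by omega)) (by positivity)
    refine lt_of_le_of_lt (mul_le_mul_of_nonneg_right h1 (Real.exp_pos _).le) ?_
    have hTpos : (0 : ℝ) < T := by linarith
    rw [← Real.log_lt_log_iff (by positivity) (by positivity), Real.log_mul (by positivity)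
      (by positivity), Real.log_exp, Real.log_mul (by positivity) (by positivity),
      Real.log_mul (by positivity) (by positivity), Real.log_pow, Real.log_pow,
      Real.log_mul (by positivity) (by positivity), Real.log_mul (by positivity) (by positivity),
      Real.log_mul (by positivity) (by positivity)]
    have h2 : ((T : ℝ) - 1) * (T * Real.log 8) ≤ ((T : ℝ) - 1) * Real.log P :=
      mul_le_mul_of_nonneg_left hlogP1 (by linarith)
    have hlT : 0 ≤ Real.log (T : ℝ) := Real.log_nonneg (by linarith)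
    push_cast
    linarith
  have hrad := rad_bound a P T ha hP f c hc hac hdvdN
  have hradR : (rad (a * (c - a) * c) : ℝ) * (P : ℝ) ^ (2 * T) ≤
      ((q * (a + P) * ∏ i : Fin (T + 1), (1 + q * i.1 * P) : ℕ) : ℝ) * c := by
    exact_mod_cast hrad
  have hcpos : (0 : ℝ) < c := by
    have : 0 < c := by omega
    exact_mod_cast this
  have hfin : (rad (a * (c - a) * c) : ℝ) * Real.exp (ll ^ 2 / 50) * (P : ℝ) ^ (2 * T) <
      c * (P : ℝ) ^ (2 * T) := by
    calc (rad (a * (c - a) * c) : ℝ) * Real.exp (ll ^ 2 / 50) * (P : ℝ) ^ (2 * T)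
        = (rad (a * (c - a) * c) : ℝ) * (P : ℝ) ^ (2 * T) * Real.exp (ll ^ 2 / 50) := by ring
      _ ≤ (((q * (a + P) * ∏ i : Fin (T + 1), (1 + q * i.1 * P) : ℕ) : ℝ) * c) *
          Real.exp (ll ^ 2 / 50) := mul_le_mul_of_nonneg_right hradR (Real.exp_pos _).le
      _ = c * (((q * (a + P) * ∏ i : Fin (T + 1), (1 + q * i.1 * P) : ℕ) : ℝ) *
          Real.exp (ll ^ 2 / 50)) := by ring
      _ < c * (P : ℝ) ^ (2 * T) := mul_lt_mul_of_pos_left hX hcpos
  exact lt_of_mul_lt_mul_right hfin (by positivity)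

end Pool.Agent.H902B
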