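import Mathlib

set_option autoImplicit false

/-!
The coefficients of the Padé approximants of the logarithm.
-/

namespace Pool.Agent.H902B

open Finset

theorem weight (m n : ℕ) (hn : n ≤ m) :
    ∏ j ∈ (range (m + 1)).erase n, ((n : ℚ) - j) =
      (-1) ^ (m - n) * (n.factorial : ℚ) * ((m - n).factorial : ℚ) := by
  set f : ℕ → ℚ := fun j => if j = n then 1 else (n : ℚ) - j with hf
  have h1 : ∏ j ∈ (range (m + 1)).erase n, ((n : ℚ) - j) = ∏ j ∈ range (m + 1), f j := by
    rw [← Finset.prod_erase (range (m + 1)) (a := n) (f := f) (by simp [hf])]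
    refine Finset.prod_congr rfl fun j hj => ?_
    rw [hf]
    simp only
    rw [if_neg (Finset.ne_of_mem_erase hj)]
  rw [h1, show m + 1 = (n + 1) + (m - n) by omega, Finset.prod_range_add, Finset.prod_range_succ]
  have h2 : f n = 1 := by simp [hf]
  have h3 : ∏ j ∈ range n, f j = (n.factorial : ℚ) := by
    have h4 : ∏ j ∈ range n, f j = ((∏ j ∈ range n, (n - j) : ℕ) : ℚ) := by
      rw [Nat.cast_prod]
      refine Finset.prod_congr rfl fun j hj => ?_
      have := Finset.mem_range.1 hj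
      rw [hf]
      simp only
      rw [if_neg (by omega), Nat.cast_sub this.le]
    rw [h4, ← Nat.descFactorial_eq_prod_range, Nat.descFactorial_self]
  have h5 : ∏ k ∈ range (m - n), f (n + 1 + k) = (-1) ^ (m - n) * ((m - n).factorial : ℚ) := by
    have h6 : ∀ k ∈ range (m - n), f (n + 1 + k) = (-1) * ((k + 1 : ℕ) : ℚ) := by
      intro k _
      rw [hf]
      simp only
      rw [if_neg (by omega)]
      push_cast
      ring
    rw [Finset.prod_congr rfl h6, Finset.prod_mul_distrib, Finset.prod_const, Finset.card_range,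
      ← Nat.cast_prod, Finset.prod_range_add_one_eq_factorial]
  rw [h2, h3, h5]
  ring

theorem lag (m : ℕ) (h : Polynomial ℚ) (hdeg : h.natDegree ≤ m) (x : ℚ)
    (hx : ∀ j ∈ range (m + 1), x ≠ (j : ℚ)) :
    h.eval x = (∏ j ∈ range (m + 1), (x - j)) *
      ∑ n ∈ range (m + 1), ((-1) ^ (m - n) * (n.factorial : ℚ) * ((m - n).factorial : ℚ))⁻¹ *
        (x - n)⁻¹ * h.eval (n : ℚ) := by
  have hinj : Set.InjOn (fun j : ℕ => (j : ℚ)) (range (m + 1)) := fun a _ b _ hab => by
    simpa using hab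
  have h1 : h = Lagrange.interpolate (range (m + 1)) (fun j : ℕ => (j : ℚ))
      (fun i => h.eval ((i : ℕ) : ℚ)) := by
    apply Lagrange.eq_interpolate hinj
    rw [Finset.card_range]
    refine lt_of_le_of_lt Polynomial.degree_le_natDegree ?_
    exact_mod_cast Nat.lt_succ_of_le hdeg
  conv_lhs => rw [h1]
  rw [Lagrange.eval_interpolate_not_at_node _ hx, Lagrange.eval_nodal]
  congr 1
  refine Finset.sum_congr rfl fun n hn => ?_
  rw [Lagrange.nodalWeight, Finset.prod_inv_distrib, weight m n (by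
    have := Finset.mem_range.1 hn
    omega)]

/-- the polynomial with values `(2 m - n).choose m` -/
noncomputable def hp (m : ℕ) : Polynomial ℚ :=
  Polynomial.C (1 / (m.factorial : ℚ)) *
    ∏ i ∈ range m, (Polynomial.C ((m + 1 + i : ℕ) : ℚ) - Polynomial.X)

theorem natDegree_hp (m : ℕ) : (hp m).natDegree ≤ m := by
  unfold hp
  refine (Polynomial.natDegree_C_mul_le _ _).trans ?_
  refine (Polynomial.natDegree_prod_le _ _).trans ?_
  refine (Finset.sum_le_card_nsmul _ _ 1 fun j _ => ?_).trans ?_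
  · refine (Polynomial.natDegree_sub_le _ _).trans (max_le ?_ ?_)
    · rw [Polynomial.natDegree_C]
      omega
    · exact Polynomial.natDegree_X_le
  · simp

theorem eval_hp (m : ℕ) (x : ℚ) : (hp m).eval x =
    1 / (m.factorial : ℚ) * ∏ i ∈ range m, (((m + 1 + i : ℕ) : ℚ) - x) := by
  unfold hp
  rw [Polynomial.eval_mul, Polynomial.eval_C, Polynomial.eval_prod]
  congr 1
  refine Finset.prod_congr rfl fun i _ => ?_
  rw [Polynomial.eval_sub, Polynomial.eval_C, Polynomial.eval_X]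

theorem eval_hp_node (m n : ℕ) (hn : n ≤ m) :
    (hp m).eval (n : ℚ) = ((2 * m - n).choose m : ℚ) := by
  rw [eval_hp]
  have h1 := Nat.ascFactorial_eq_factorial_mul_choose (m - n) m
  rw [Nat.ascFactorial_eq_prod_range] at h1
  have h2 : ∏ i ∈ range m, (((m + 1 + i : ℕ) : ℚ) - n) =
      ((∏ i ∈ range m, (m - n + 1 + i) : ℕ) : ℚ) := by
    rw [Nat.cast_prod]
    refine Finset.prod_congr rfl fun i _ => ?_
    rw [Nat.cast_add (m - n + 1), Nat.cast_add (m - n), Nat.cast_sub hn]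
    push_cast
    ring
  rw [h2, h1, show m - n + m = 2 * m - n by omega]
  have h3 : (m.factorial : ℚ) ≠ 0 := by exact_mod_cast Nat.factorial_ne_zero m
  push_cast
  field_simp

theorem eval_hp_zero (m s : ℕ) (h1 : m < s) (h2 : s ≤ 2 * m) : (hp m).eval (s : ℚ) = 0 := by
  rw [eval_hp, Finset.prod_eq_zero (i := s - m - 1) (Finset.mem_range.2 (by omega))]
  · simp
  · rw [show m + 1 + (s - m - 1) = s by omega]
    ring

theorem eval_hp_top (m : ℕ) : (hp m).eval ((2 * m + 1 : ℕ) : ℚ) = (-1) ^ m := by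
  rw [eval_hp]
  have h1 : ∀ i ∈ range m, (((m + 1 + i : ℕ) : ℚ) - ((2 * m + 1 : ℕ) : ℚ)) =
      (-1) * ((m - i : ℕ) : ℚ) := by
    intro i hi
    have := Finset.mem_range.1 hi
    rw [Nat.cast_sub this.le]
    push_cast
    ring
  rw [Finset.prod_congr rfl h1, Finset.prod_mul_distrib, Finset.prod_const, Finset.card_range,
    ← Nat.cast_prod, ← Nat.descFactorial_eq_prod_range, Nat.descFactorial_self]
  have h3 : (m.factorial : ℚ) ≠ 0 := by exact_mod_cast Nat.factorial_ne_zero m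
  field_simp

theorem sum_eq (m : ℕ) (x : ℚ) :
    ∑ n ∈ range (m + 1), ((-1) ^ (m - n) * (n.factorial : ℚ) * ((m - n).factorial : ℚ))⁻¹ *
        (x - n)⁻¹ * (hp m).eval (n : ℚ) = (-1) ^ m * (1 / (m.factorial : ℚ)) *
    ∑ n ∈ range (m + 1), (-1 : ℚ) ^ n * (m.choose n : ℚ) * ((2 * m - n).choose m : ℚ) / (x - n) := by
  rw [Finset.mul_sum]
  refine Finset.sum_congr rfl fun n hn => ?_
  have hn' : n ≤ m := by
    have := Finset.mem_range.1 hn
    omega
  rw [eval_hp_node m n hn']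
  have h1 : (m.factorial : ℚ) = (m.choose n : ℚ) * n.factorial * (m - n).factorial := by
    exact_mod_cast (Nat.choose_mul_factorial_mul_factorial hn').symm
  have h2 : (m.factorial : ℚ) ≠ 0 := by exact_mod_cast Nat.factorial_ne_zero m
  have h3 : (n.factorial : ℚ) ≠ 0 := by exact_mod_cast Nat.factorial_ne_zero n
  have h4 : ((m - n).factorial : ℚ) ≠ 0 := by exact_mod_cast Nat.factorial_ne_zero (m - n)
  have h5 : (m.choose n : ℚ) ≠ 0 := by
    exact_mod_cast (Nat.choose_pos hn').ne'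
  have h6 : ((-1 : ℚ) ^ (m - n))⁻¹ = (-1) ^ m * (-1) ^ n := by
    rw [← pow_add, show m + n = (m - n) + 2 * n by omega, pow_add, pow_mul]
    have h7 : ((-1 : ℚ) ^ (m - n)) ^ 2 = 1 := by
      rw [← pow_mul, mul_comm, pow_mul]
      simp
    have h8 : (-1 : ℚ) ^ (m - n) ≠ 0 := pow_ne_zero _ (by norm_num)
    field_simp
    rw [h7]
    simp
  rw [mul_inv, mul_inv, h6, h1]
  field_simp

theorem pade_zero (m s : ℕ) (h1 : m < s) (h2 : s ≤ 2 * m) :
    ∑ n ∈ range (m + 1), (-1 : ℚ) ^ n * (m.choose n : ℚ) * ((2 * m - n).choose m : ℚ) /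
      ((s : ℚ) - n) = 0 := by
  have hx : ∀ j ∈ range (m + 1), (s : ℚ) ≠ (j : ℚ) := by
    intro j hj h
    have := Finset.mem_range.1 hj
    have h3 : s = j := by exact_mod_cast h
    omega
  have h := lag m (hp m) (natDegree_hp m) (s : ℚ) hx
  rw [eval_hp_zero m s h1 h2, sum_eq] at h
  have h3 : ∏ j ∈ range (m + 1), ((s : ℚ) - j) ≠ 0 :=
    Finset.prod_ne_zero_iff.2 fun j hj => sub_ne_zero.2 (hx j hj)
  have h4 : (m.factorial : ℚ) ≠ 0 := by exact_mod_cast Nat.factorial_ne_zero m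
  have h5 : (-1 : ℚ) ^ m ≠ 0 := pow_ne_zero _ (by norm_num)
  rcases mul_eq_zero.1 h.symm with h6 | h6
  · exact absurd h6 h3
  · rcases mul_eq_zero.1 h6 with h7 | h7
    · exact absurd h7 (mul_ne_zero h5 (by positivity))
    · exact h7

theorem pade_top (m : ℕ) :
    ((2 * m + 1).factorial : ℚ) * ∑ n ∈ range (m + 1), (-1 : ℚ) ^ n * (m.choose n : ℚ) *
      ((2 * m - n).choose m : ℚ) / (((2 * m + 1 : ℕ) : ℚ) - n) = (m.factorial : ℚ) ^ 2 := by
  have hx : ∀ j ∈ range (m + 1), ((2 * m + 1 : ℕ) : ℚ) ≠ (j : ℚ) := by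
    intro j hj h
    have := Finset.mem_range.1 hj
    have h3 : 2 * m + 1 = j := by exact_mod_cast h
    omega
  have h := lag m (hp m) (natDegree_hp m) ((2 * m + 1 : ℕ) : ℚ) hx
  rw [eval_hp_top m, sum_eq] at h
  have h3 : ∏ j ∈ range (m + 1), (((2 * m + 1 : ℕ) : ℚ) - j) =
      ((2 * m + 1).descFactorial (m + 1) : ℚ) := by
    rw [Nat.descFactorial_eq_prod_range, Nat.cast_prod]
    refine Finset.prod_congr rfl fun j hj => ?_
    have := Finset.mem_range.1 hj
    rw [Nat.cast_sub (by omega)]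
  have h4 : (m.factorial : ℚ) * ((2 * m + 1).descFactorial (m + 1) : ℚ) =
      ((2 * m + 1).factorial : ℚ) := by
    have := Nat.factorial_mul_descFactorial (n := 2 * m + 1) (k := m + 1) (by omega)
    rw [show 2 * m + 1 - (m + 1) = m by omega] at this
    exact_mod_cast this
  have h5 : (-1 : ℚ) ^ m * (-1) ^ m = 1 := by
    rw [← pow_add, ← two_mul, pow_mul]
    simp
  have h6 : (m.factorial : ℚ) ≠ 0 := by exact_mod_cast Nat.factorial_ne_zero m
  rw [h3] at h
  have h7 := congrArg (fun z => (-1 : ℚ) ^ m * z * (m.factorial : ℚ) ^ 2) h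
  beta_reduce at h7
  rw [h5, one_mul] at h7
  rw [h7, ← h4]
  have h8 : (1 / (m.factorial : ℚ)) * (m.factorial : ℚ) ^ 2 = m.factorial := by
    field_simp
  linear_combination (-((2 * m + 1).descFactorial (m + 1) : ℚ) * (∑ n ∈ range (m + 1),
    (-1 : ℚ) ^ n * (m.choose n : ℚ) * ((2 * m - n).choose m : ℚ) /
    (((2 * m + 1 : ℕ) : ℚ) - n)) * (1 / (m.factorial : ℚ)) * (m.factorial : ℚ) ^ 2) * h5 -
    (((2 * m + 1).descFactorial (m + 1) : ℚ) * (∑ n ∈ range (m + 1),
    (-1 : ℚ) ^ n * (m.choose n : ℚ) * ((2 * m - n).choose m : ℚ) /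
    (((2 * m + 1 : ℕ) : ℚ) - n))) * h8

end Pool.Agent.H902B
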