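import Pool.Agent.H902B.Dif
import Pool.Agent.H902B.Lag

set_option autoImplicit false

/-!
Integral functionals of small height with double nodes that vanish on polynomials of small degree.
-/

namespace Pool.Agent.H902B

open Finset

/-- the denominator -/
def LL (m : ℕ) : ℕ := Nat.lcmUpto m

/-- coefficients of the Padé denominator -/
def bb (m n : ℕ) : ℤ := (m.choose n : ℤ) * ((2 * m - n).choose m : ℤ)

/-- coefficients of the Padé numerator -/
def aa (m s : ℕ) : ℤ :=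
  - ∑ n ∈ range s, bb m n * (-1) ^ (s + n + 1) * ((LL m / (s - n) : ℕ) : ℤ)

/-- weights of the values -/
def A (m k i : ℕ) : ℤ :=
  ∑ s ∈ range (m + 1), aa m s * ((-1) ^ (s + k + i) * ((s + k).choose i : ℤ))

/-- weights of the derivatives -/
def B (m k i : ℕ) : ℤ :=
  ∑ n ∈ range (m + 1), (LL m : ℤ) * bb m n * ((-1) ^ (n + k + i) * ((n + k).choose i : ℤ))

theorem dvd_LL (m t : ℕ) (h1 : 1 ≤ t) (h2 : t ≤ m) : t ∣ LL m := by
  unfold LL Nat.lcmUpto
  exact Finset.dvd_lcm (f := id) (Finset.mem_Icc.2 ⟨h1, h2⟩)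

theorem c_eq (s n : ℕ) (h : n < s) : c (s - n - 1) = (-1) ^ (s + n + 1) / ((s : ℚ) - n) := by
  unfold c
  have h1 : ((s - n - 1 : ℕ) : ℚ) + 1 = (s : ℚ) - n := by
    rw [← Nat.cast_succ, Nat.succ_eq_add_one, show s - n - 1 + 1 = s - n by omega,
      Nat.cast_sub h.le]
  have h2 : (-1 : ℚ) ^ (s + n + 1) = (-1) ^ (s - n - 1) := by
    rw [show s + n + 1 = (s - n - 1) + 2 * (n + 1) by omega, pow_add, pow_mul]
    simp
  rw [h1, h2]

theorem sum_A (m k ν M : ℕ) (hM : m + k < M) :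
    ∑ i ∈ range M, A m k i * (i : ℤ) ^ ν = ∑ s ∈ range (m + 1), aa m s * d ν (s + k) := by
  unfold A
  rw [Finset.sum_congr rfl fun i _ => Finset.sum_mul _ _ _, Finset.sum_comm]
  refine Finset.sum_congr rfl fun s hs => ?_
  have := Finset.mem_range.1 hs
  rw [← sum_choose ν (s + k) M (by omega), Finset.mul_sum]
  refine Finset.sum_congr rfl fun i _ => ?_
  ring

theorem sum_B (m k ν M : ℕ) (hM : m + k < M) :
    ∑ i ∈ range M, B m k i * (i : ℤ) ^ ν =
      ∑ n ∈ range (m + 1), (LL m : ℤ) * bb m n * d ν (n + k) := by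
  unfold B
  rw [Finset.sum_congr rfl fun i _ => Finset.sum_mul _ _ _, Finset.sum_comm]
  refine Finset.sum_congr rfl fun s hs => ?_
  have := Finset.mem_range.1 hs
  rw [← sum_choose ν (s + k) M (by omega), Finset.mul_sum]
  refine Finset.sum_congr rfl fun i _ => ?_
  ring

theorem B_zero (m k M : ℕ) (hk : 1 ≤ k) (hM : m + k < M) : ∑ i ∈ range M, B m k i = 0 := by
  have h := sum_B m k 0 M hM
  simp only [pow_zero, mul_one] at h
  rw [h]
  refine Finset.sum_eq_zero fun n _ => ?_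
  rw [d_zero_left (n + k) (by omega), mul_zero]

/-- the coefficients of the remainder -/
def ρ (m s : ℕ) : ℚ :=
  (if s ≤ m then (aa m s : ℚ) else 0) + ∑ n ∈ range (m + 1),
    if n < s then (LL m : ℚ) * (bb m n : ℚ) * c (s - n - 1) else 0

theorem aa_cast (m s : ℕ) (hs : s ≤ m) : (aa m s : ℚ) =
    - ∑ n ∈ range s, (LL m : ℚ) * (bb m n : ℚ) * c (s - n - 1) := by
  unfold aa
  rw [Int.cast_neg, Int.cast_sum]
  congr 1
  refine Finset.sum_congr rfl fun n hn => ?_
  have hn' := Finset.mem_range.1 hn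
  rw [Int.cast_mul, Int.cast_mul, Int.cast_pow, Int.cast_neg, Int.cast_one, Int.cast_natCast,
    c_eq s n hn', Nat.cast_div (dvd_LL m (s - n) (by omega) (by omega)) (by
    have : 0 < s - n := by omega
    exact_mod_cast this.ne'), Nat.cast_sub hn'.le]
  have h2 : (s : ℚ) - n ≠ 0 := by
    have : (n : ℚ) < s := by exact_mod_cast hn'
    linarith
  field_simp

theorem ρ_small (m s : ℕ) (hs : s ≤ m) : ρ m s = 0 := by
  unfold ρ
  rw [if_pos hs]
  have h1 : ∑ n ∈ range (m + 1), (if n < s then (LL m : ℚ) * (bb m n : ℚ) * c (s - n - 1) else 0) =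
      ∑ n ∈ range s, (LL m : ℚ) * (bb m n : ℚ) * c (s - n - 1) := by
    rw [← Finset.sum_filter]
    refine Finset.sum_congr ?_ fun _ _ => rfl
    ext n
    simp only [Finset.mem_filter, Finset.mem_range]
    omega
  rw [h1, aa_cast m s hs]
  ring

theorem ρ_large (m s : ℕ) (hs : m < s) : ρ m s = (LL m : ℚ) * (-1) ^ (s + 1) *
    ∑ n ∈ range (m + 1), (-1 : ℚ) ^ n * (m.choose n : ℚ) * ((2 * m - n).choose m : ℚ) /
      ((s : ℚ) - n) := by
  unfold ρ
  rw [if_neg (by omega), zero_add, Finset.mul_sum]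
  refine Finset.sum_congr rfl fun n hn => ?_
  have hn' := Finset.mem_range.1 hn
  rw [if_pos (by omega), c_eq s n (by omega)]
  unfold bb
  push_cast
  rw [show s + n + 1 = (s + 1) + n by ring, pow_add]
  ring

theorem ρ_mid (m s : ℕ) (hs : m < s) (hs2 : s ≤ 2 * m) : ρ m s = 0 := by
  rw [ρ_large m s hs, pade_zero m s hs hs2, mul_zero]

theorem ρ_top (m : ℕ) : ((2 * m + 1).factorial : ℚ) * ρ m (2 * m + 1) =
    (LL m : ℚ) * (m.factorial : ℚ) ^ 2 := by
  rw [ρ_large m (2 * m + 1) (by omega), ← pade_top m]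
  have : (-1 : ℚ) ^ (2 * m + 1 + 1) = 1 := by
    rw [show 2 * m + 1 + 1 = 2 * (m + 1) by ring, pow_mul]
    simp
  rw [this]
  ring

/-- the value of the functional on `t ^ (ν + 1)` -/
theorem lam (m k ν M : ℕ) (hM : m + k < M) :
    ((∑ i ∈ range M, A m k i * (i : ℤ) ^ (ν + 1) +
      ((ν : ℤ) + 1) * ∑ i ∈ range M, B m k i * (i : ℤ) ^ ν : ℤ) : ℚ) =
    ∑ s ∈ range (m + ν + 3), ρ m s * (d (ν + 1) (s + k) : ℚ) := by
  rw [sum_A m k (ν + 1) M hM, sum_B m k ν M hM]
  unfold ρ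
  rw [Finset.sum_congr rfl fun s _ => add_mul _ _ _, Finset.sum_add_distrib]
  push_cast
  congr 1
  · rw [← Finset.sum_subset (Finset.range_mono (by omega : m + 1 ≤ m + ν + 3))]
    · refine Finset.sum_congr rfl fun s hs => ?_
      have := Finset.mem_range.1 hs
      rw [if_pos (by omega)]
    · intro s _ hs
      rw [Finset.mem_range, not_lt] at hs
      rw [if_neg (by omega), zero_mul]
  · rw [Finset.sum_congr rfl fun s _ => Finset.sum_mul _ _ _, Finset.sum_comm, Finset.mul_sum]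
    refine Finset.sum_congr rfl fun n hn => ?_
    have hn' := Finset.mem_range.1 hn
    have h1 := d_der ν (n + k) (m + ν + 3 - (n + 1)) (by omega)
    have h2 : ∑ j ∈ range (m + ν + 3 - (n + 1)), c j * (d (ν + 1) (n + k + j + 1) : ℚ) =
        ∑ s ∈ Finset.Ico (n + 1) (m + ν + 3), c (s - n - 1) * (d (ν + 1) (s + k) : ℚ) := by
      rw [Finset.sum_Ico_eq_sum_range]
      refine Finset.sum_congr rfl fun j _ => ?_
      rw [show n + 1 + j - n - 1 = j by omega, show n + 1 + j + k = n + k + j + 1 by ring]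
    have h3 : ∑ s ∈ range (m + ν + 3), (if n < s then (LL m : ℚ) * (bb m n : ℚ) * c (s - n - 1)
        else 0) * (d (ν + 1) (s + k) : ℚ) = (LL m : ℚ) * (bb m n : ℚ) *
        ∑ s ∈ Finset.Ico (n + 1) (m + ν + 3), c (s - n - 1) * (d (ν + 1) (s + k) : ℚ) := by
      rw [Finset.mul_sum]
      have h4 : Finset.Ico (n + 1) (m + ν + 3) = (range (m + ν + 3)).filter (fun s => n < s) := by
        ext s
        simp only [Finset.mem_filter, Finset.mem_range, Finset.mem_Ico]
        omega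
      rw [h4, Finset.sum_filter]
      refine Finset.sum_congr rfl fun s _ => ?_
      split_ifs
      · ring
      · simp
    rw [h3, ← h2, ← h1]
    ring

theorem lam_zero (m k ν M : ℕ) (hM : m + k < M) (hν : ν < 2 * m + k) :
    ∑ i ∈ range M, A m k i * (i : ℤ) ^ (ν + 1) +
      ((ν : ℤ) + 1) * ∑ i ∈ range M, B m k i * (i : ℤ) ^ ν = 0 := by
  have h := lam m k ν M hM
  have h0 : ∑ s ∈ range (m + ν + 3), ρ m s * (d (ν + 1) (s + k) : ℚ) = 0 := by
    refine Finset.sum_eq_zero fun s _ => ?_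
    rcases Nat.lt_or_ge (2 * m) s with h1 | h1
    · rw [d_eq_zero (ν + 1) (s + k) (by omega)]
      simp
    · rcases Nat.lt_or_ge m s with h2 | h2
      · rw [ρ_mid m s h2 h1, zero_mul]
      · rw [ρ_small m s h2, zero_mul]
  rw [h0] at h
  exact_mod_cast h

theorem lam_top (m k M : ℕ) (hM : m + k < M) :
    ((2 * m + 1).factorial : ℤ) * (∑ i ∈ range M, A m k i * (i : ℤ) ^ (2 * m + k + 1) +
      (((2 * m + k : ℕ) : ℤ) + 1) * ∑ i ∈ range M, B m k i * (i : ℤ) ^ (2 * m + k)) =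
    ((2 * m + k + 1).factorial : ℤ) * (LL m : ℤ) * (m.factorial : ℤ) ^ 2 := by
  have h := lam m k (2 * m + k) M hM
  have h0 : ∑ s ∈ range (m + (2 * m + k) + 3), ρ m s * (d (2 * m + k + 1) (s + k) : ℚ) =
      ρ m (2 * m + 1) * (((2 * m + k + 1).factorial : ℤ) : ℚ) := by
    rw [Finset.sum_eq_single (2 * m + 1)]
    · rw [show 2 * m + 1 + k = 2 * m + k + 1 by ring, d_diag]
    · intro s _ hs
      rcases Nat.lt_or_ge (2 * m + 1) s with h1 | h1
      · rw [d_eq_zero (2 * m + k + 1) (s + k) (by omega)]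
        simp
      · rcases Nat.lt_or_ge m s with h2 | h2
        · rw [ρ_mid m s h2 (by omega), zero_mul]
        · rw [ρ_small m s h2, zero_mul]
    · intro h1
      exact absurd (Finset.mem_range.2 (by omega)) h1
  rw [h0] at h
  have h2 := ρ_top m
  have h3 : (((2 * m + 1).factorial : ℤ) : ℚ) * ((∑ i ∈ range M,
      A m k i * (i : ℤ) ^ (2 * m + k + 1) + (((2 * m + k : ℕ) : ℤ) + 1) *
        ∑ i ∈ range M, B m k i * (i : ℤ) ^ (2 * m + k) : ℤ) : ℚ) =
      (((2 * m + k + 1).factorial : ℤ) : ℚ) * (LL m : ℚ) * (m.factorial : ℚ) ^ 2 := by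
    rw [h, Int.cast_natCast]
    linear_combination (((2 * m + k + 1).factorial : ℤ) : ℚ) * h2
  exact_mod_cast h3

theorem bb_nonneg (m n : ℕ) : 0 ≤ bb m n := by
  unfold bb
  positivity

theorem sum_bb (m : ℕ) : ∑ n ∈ range (m + 1), bb m n ≤ 8 ^ m := by
  have h1 : ∀ n ∈ range (m + 1), bb m n ≤ (m.choose n : ℤ) * 4 ^ m := by
    intro n _
    unfold bb
    have h2 : (2 * m - n).choose m ≤ 4 ^ m := by
      calc (2 * m - n).choose m ≤ (2 * m).choose m := Nat.choose_le_choose m (by omega)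
        _ ≤ 2 ^ (2 * m) := Nat.choose_le_two_pow _ _
        _ = 4 ^ m := by rw [pow_mul]; norm_num
    have h3 : ((2 * m - n).choose m : ℤ) ≤ 4 ^ m := by exact_mod_cast h2
    exact mul_le_mul_of_nonneg_left h3 (by positivity)
  refine (Finset.sum_le_sum h1).trans ?_
  rw [← Finset.sum_mul]
  have h4 : ∑ n ∈ range (m + 1), (m.choose n : ℤ) = 2 ^ m := by
    exact_mod_cast Nat.sum_range_choose m
  rw [h4, ← mul_pow]
  norm_num

theorem abs_aa (m s : ℕ) (hs : s ≤ m) : |aa m s| ≤ (LL m : ℤ) * 8 ^ m := by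
  unfold aa
  rw [abs_neg]
  refine (Finset.abs_sum_le_sum_abs _ _).trans ?_
  have h1 : ∀ n ∈ range s, |bb m n * (-1) ^ (s + n + 1) * ((LL m / (s - n) : ℕ) : ℤ)| ≤
      bb m n * (LL m : ℤ) := by
    intro n _
    rw [abs_mul, abs_mul, abs_pow, abs_neg, abs_one, one_pow, mul_one,
      abs_of_nonneg (bb_nonneg m n), abs_of_nonneg (by positivity : (0 : ℤ) ≤
        ((LL m / (s - n) : ℕ) : ℤ))]
    exact mul_le_mul_of_nonneg_left (by exact_mod_cast Nat.div_le_self _ _) (bb_nonneg m n)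
  refine (Finset.sum_le_sum h1).trans ?_
  rw [← Finset.sum_mul, mul_comm]
  refine mul_le_mul_of_nonneg_left ?_ (by positivity)
  refine le_trans ?_ (sum_bb m)
  exact Finset.sum_le_sum_of_subset_of_nonneg (Finset.range_mono (by omega))
    (fun n _ _ => bb_nonneg m n)

theorem abs_choose (m k n i : ℕ) (hn : n ≤ m) :
    |(-1 : ℤ) ^ (n + k + i) * ((n + k).choose i : ℤ)| ≤ 2 ^ (m + k) := by
  rw [abs_mul, abs_pow, abs_neg, abs_one, one_pow, one_mul, abs_of_nonneg (by positivity)]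
  have h1 : (n + k).choose i ≤ 2 ^ (m + k) :=
    (Nat.choose_le_two_pow _ _).trans (Nat.pow_le_pow_right (by norm_num) (by omega))
  exact_mod_cast h1

theorem abs_A (m k i : ℕ) : |A m k i| ≤ ((m : ℤ) + 1) * (LL m : ℤ) * 8 ^ m * 2 ^ (m + k) := by
  unfold A
  refine (Finset.abs_sum_le_sum_abs _ _).trans ?_
  have h1 : ∀ s ∈ range (m + 1), |aa m s * ((-1) ^ (s + k + i) * ((s + k).choose i : ℤ))| ≤
      (LL m : ℤ) * 8 ^ m * 2 ^ (m + k) := by
    intro s hs
    have := Finset.mem_range.1 hs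
    rw [abs_mul]
    exact mul_le_mul (abs_aa m s (by omega)) (abs_choose m k s i (by omega)) (abs_nonneg _)
      (by positivity)
  refine (Finset.sum_le_card_nsmul _ _ _ h1).trans (le_of_eq ?_)
  rw [Finset.card_range, nsmul_eq_mul]
  push_cast
  ring

theorem abs_B (m k i : ℕ) : |B m k i| ≤ ((m : ℤ) + 1) * (LL m : ℤ) * 8 ^ m * 2 ^ (m + k) := by
  unfold B
  refine (Finset.abs_sum_le_sum_abs _ _).trans ?_
  have h1 : ∀ n ∈ range (m + 1), |(LL m : ℤ) * bb m n * ((-1) ^ (n + k + i) *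
      ((n + k).choose i : ℤ))| ≤ (LL m : ℤ) * bb m n * 2 ^ (m + k) := by
    intro n hn
    have := Finset.mem_range.1 hn
    rw [abs_mul, abs_of_nonneg (mul_nonneg (by positivity) (bb_nonneg m n))]
    exact mul_le_mul_of_nonneg_left (abs_choose m k n i (by omega))
      (mul_nonneg (by positivity) (bb_nonneg m n))
  refine (Finset.sum_le_sum h1).trans ?_
  rw [← Finset.sum_mul, ← Finset.mul_sum]
  have h2 : (LL m : ℤ) * ∑ n ∈ range (m + 1), bb m n ≤ (LL m : ℤ) * 8 ^ m :=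
    mul_le_mul_of_nonneg_left (sum_bb m) (by positivity)
  refine mul_le_mul_of_nonneg_right ?_ (by positivity)
  have h3 : (0 : ℤ) ≤ (LL m : ℤ) * 8 ^ m := by positivity
  nlinarith

end Pool.Agent.H902B
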